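import Pool.Agent.H30.FT.Dec

/-!
# Counting the paths of the two lattices
-/

set_option autoImplicit false

namespace H30.FT

open Finset
open scoped Classical

/-- the number of words of length `m` in `2`, `3` with sum `N` -/
def D : ℕ → ℕ → ℕ
  | 0, N => if N = 0 then 1 else 0
  | m + 1, N => (if 2 ≤ N then D m (N - 2) else 0) + (if 3 ≤ N then D m (N - 3) else 0)

/-- the sum of a word in `2` (false) and `3` (true) -/
def cb : List Bool → ℕ
  | [] => 0
  | b :: t => (if b then 3 else 2) + cb t

theorem cost_eq (t : List (Fin 3 × Bool)) : cost t = cb (t.map Prod.snd) := by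
  induction t with
  | nil => rfl
  | cons x t ih =>
    obtain ⟨j, b⟩ := x
    simp [cost, cb, ih]

theorem cb_ge (b : List Bool) : 2 * b.length ≤ cb b := by
  induction b with
  | nil => simp [cb]
  | cons x t ih => cases x <;> simp [cb] <;> omega

theorem cb_le (b : List Bool) : cb b ≤ 3 * b.length := by
  induction b with
  | nil => simp [cb]
  | cons x t ih => cases x <;> simp [cb] <;> omega

/-- the words counted by `D` -/
noncomputable def BB : ℕ → ℕ → Finset (List Bool)
  | 0, N => if N = 0 then {[]} else ∅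
  | m + 1, N => (if 2 ≤ N then (BB m (N - 2)).image (List.cons false) else ∅) ∪
      (if 3 ≤ N then (BB m (N - 3)).image (List.cons true) else ∅)

theorem mem_BB (m N : ℕ) (b : List Bool) : b ∈ BB m N ↔ b.length = m ∧ cb b = N := by
  induction m generalizing N b with
  | zero =>
    unfold BB
    constructor
    · intro h
      split_ifs at h with h0
      · rw [mem_singleton] at h
        subst h
        exact ⟨rfl, by simp [cb, h0]⟩
      · simp at h
    · rintro ⟨h1, h2⟩
      have : b = [] := List.length_eq_zero_iff.1 h1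
      subst this
      simp only [cb] at h2
      rw [if_pos h2.symm]
      simp
  | succ m ih =>
    unfold BB
    rw [mem_union]
    constructor
    · rintro (h | h)
      · split_ifs at h with h0
        · rw [mem_image] at h
          obtain ⟨b', h1, rfl⟩ := h
          rw [ih] at h1
          refine ⟨by simp [h1.1], ?_⟩
          simp only [cb, Bool.false_eq_true, if_false]
          omega
        · simp at h
      · split_ifs at h with h0
        · rw [mem_image] at h
          obtain ⟨b', h1, rfl⟩ := h
          rw [ih] at h1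
          refine ⟨by simp [h1.1], ?_⟩
          simp only [cb, if_true]
          omega
        · simp at h
    · rintro ⟨h1, h2⟩
      cases b with
      | nil => simp at h1
      | cons x b =>
        cases x with
        | false =>
          left
          simp only [cb, Bool.false_eq_true, if_false] at h2
          rw [if_pos (by omega), mem_image]
          refine ⟨b, ?_, rfl⟩
          rw [ih]
          exact ⟨by simpa using h1, by omega⟩
        | true =>
          right
          simp only [cb, if_true] at h2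
          rw [if_pos (by omega), mem_image]
          refine ⟨b, ?_, rfl⟩
          rw [ih]
          exact ⟨by simpa using h1, by omega⟩

theorem card_BB (m N : ℕ) : (BB m N).card = D m N := by
  induction m generalizing N with
  | zero =>
    unfold BB D
    split_ifs <;> simp
  | succ m ih =>
    unfold BB D
    rw [card_union_of_disjoint]
    · have h1 : Function.Injective (List.cons false) := List.cons_injective
      have h2 : Function.Injective (List.cons true) := List.cons_injective
      congr 1
      · split_ifs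
        · rw [card_image_of_injective _ h1, ih]
        · simp
      · split_ifs
        · rw [card_image_of_injective _ h2, ih]
        · simp
    · rw [disjoint_left]
      intro b h1 h2
      split_ifs at h1 h2
      · rw [mem_image] at h1 h2
        obtain ⟨c, _, rfl⟩ := h1
        obtain ⟨c', _, h⟩ := h2
        simp at h
      all_goals simp at h1 h2

theorem D_zero_of {m N : ℕ} (h : N < 2 * m ∨ 3 * m < N) : D m N = 0 := by
  rw [← card_BB, card_eq_zero, eq_empty_iff_forall_notMem]
  intro b hb
  rw [mem_BB] at hb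
  have h1 := cb_ge b
  have h2 := cb_le b
  omega

/-- the numbers of paths -/
noncomputable def aH (m : ℕ) : ℕ := (W nb (0, 0) m).ncard

noncomputable def aF (n : ℕ) : ℕ := (W nbF ((0, 0), 0) n).ncard

noncomputable def WH (p : ℤ × ℤ) (m : ℕ) : Finset (List (Fin 3)) := (W_finite nb p m).toFinset

noncomputable def WF (n : ℕ) : Finset (List (Fin 3)) := (W_finite nbF ((0, 0), 0) n).toFinset

theorem mem_WH (p : ℤ × ℤ) (m : ℕ) (d : List (Fin 3)) :
    d ∈ WH p m ↔ d.length = m ∧ SA nb {p} p d := by
  rw [WH, Set.Finite.mem_toFinset, W, Set.mem_ofPred_eq, SA_self]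

theorem mem_WF (n : ℕ) (d : List (Fin 3)) :
    d ∈ WF n ↔ d.length = n ∧ SA nbF {((0, 0), 0)} ((0, 0), 0) d := by
  rw [WF, Set.Finite.mem_toFinset, W, Set.mem_ofPred_eq, SA_self]

theorem card_WF (n : ℕ) : (WF n).card = aF n := by
  rw [WF, aF, Set.ncard_eq_toFinset_card _ (W_finite nbF ((0, 0), 0) n)]

theorem card_WH (m : ℕ) : (WH (0, 0) m).card = aH m := by
  rw [WH, aH, Set.ncard_eq_toFinset_card _ (W_finite nb (0, 0) m)]

/-- the reflection which exchanges the two classes of vertices -/
def rf (p : ℤ × ℤ) : ℤ × ℤ := (1 - p.1, -p.2)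

theorem sg_rf (p : ℤ × ℤ) : sg (rf p) = - sg p := by
  unfold sg rf
  by_cases h : Even (p.1 + p.2)
  · rw [if_pos h, if_neg]
    rw [Int.not_even_iff_odd]
    obtain ⟨k, hk⟩ := h
    exact ⟨-k, by simp only; omega⟩
  · rw [if_neg h, if_pos]
    · norm_num
    rw [Int.not_even_iff_odd] at h
    obtain ⟨k, hk⟩ := h
    exact ⟨-k, by simp only; omega⟩

theorem nb_rf (p : ℤ × ℤ) (j : Fin 3) : rf (nb p j) = nb (rf p) j := by
  have h := sg_rf p
  unfold nb
  rw [h]
  unfold rf
  split_ifs <;> ext <;> simp <;> ring

theorem rf_inj : Function.Injective rf := by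
  intro p q h
  unfold rf at h
  rw [Prod.mk.injEq] at h
  ext <;> omega

theorem card_WH' (m : ℕ) : (WH (nb (0, 0) 0) m).card = aH m := by
  rw [← card_WH]
  congr 1
  ext d
  have h1 : nb (0, 0) 0 = rf (0, 0) := by
    simp [nb, rf, sg]
  rw [mem_WH, mem_WH, SA_self, SA_self, h1]
  have h2 := tr_map nb nb rf id (fun a j => nb_rf a j) (0, 0) d
  rw [List.map_id] at h2
  rw [h2, List.nodup_map_iff rf_inj]

/-- the exchange of two labels -/
def sw (i : Fin 3) : Fin 3 := if i = 0 then 1 else if i = 1 then 0 else 2

def mr (p : ℤ × ℤ) : ℤ × ℤ := (-p.1, p.2)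

theorem nb_mr (p : ℤ × ℤ) (j : Fin 3) : mr (nb p j) = nb (mr p) (sw j) := by
  have h : sg (mr p) = sg p := by
    unfold sg mr
    have : Even (-p.1 + p.2) ↔ Even (p.1 + p.2) := by
      rw [Int.even_add, Int.even_add, even_neg]
    simp only [this]
  unfold nb sw
  rw [h]
  unfold mr
  fin_cases j <;> simp <;> ring

theorem sw_inj : Function.Injective sw := by decide

theorem mr_inj : Function.Injective mr := by
  intro p q h
  unfold mr at h
  rw [Prod.mk.injEq] at h
  ext <;> omega

/-- paths which do not start with the label `0` -/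
noncomputable def WH0 (m : ℕ) : Finset (List (Fin 3)) :=
  (WH (0, 0) m).filter (fun d => d.head? ≠ some 0)

theorem card_WH0 (m : ℕ) : aH m ≤ 2 * (WH0 m).card := by
  rw [← card_WH]
  have h1 : (WH (0, 0) m).card = (WH0 m).card +
      ((WH (0, 0) m).filter (fun d => ¬ (d.head? ≠ some 0))).card := by
    rw [WH0, card_filter_add_card_filter_not]
  have h2 : ((WH (0, 0) m).filter (fun d => ¬ (d.head? ≠ some 0))).card ≤ (WH0 m).card := by
    refine card_le_card_of_injOn (List.map sw) ?_ ?_
    · intro d hd
      simp only [coe_filter, Set.mem_ofPred_eq, not_not] at hd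
      simp only [WH0, coe_filter, Set.mem_ofPred_eq]
      rw [mem_WH, SA_self] at hd ⊢
      have h3 := tr_map nb nb mr sw (fun a j => nb_mr a j) (0, 0) d
      have h4 : mr (0, 0) = (0, 0) := by simp [mr]
      rw [h4] at h3
      rw [h3, List.nodup_map_iff mr_inj, List.length_map]
      refine ⟨hd.1, ?_⟩
      cases d with
      | nil => simp at hd
      | cons j d =>
        have := hd.2
        simp only [List.head?_cons, Option.some.injEq] at this
        subst this
        simp [sw]
    · intro d _ d' _ h
      exact List.map_injective_iff.2 sw_inj h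
  omega

/-- the lower bound -/
theorem lower (N : ℕ) : ∑ m ∈ range (N + 1), (WH0 m).card * D m N ≤ aF N := by
  rw [← card_WF]
  have e : ∑ m ∈ range (N + 1), (WH0 m).card * D m N =
      ((range (N + 1)).sigma (fun m => WH0 m ×ˢ BB m N)).card := by
    rw [card_sigma]
    refine sum_congr rfl fun m _ => ?_
    rw [card_product, card_BB]
  rw [e]
  have key : ∀ x ∈ (range (N + 1)).sigma (fun m => WH0 m ×ˢ BB m N),
      x.2.1.length = x.1 ∧ x.2.2.length = x.1 ∧ cb x.2.2 = N ∧ SA nb {(0, 0)} (0, 0) x.2.1 ∧
        x.2.1.head? ≠ some 0 := by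
    rintro ⟨m, d, b⟩ hx
    rw [mem_sigma, mem_product, mem_BB] at hx
    simp only [WH0, mem_filter, mem_WH] at hx
    exact ⟨hx.2.1.1.1, hx.2.2.1, hx.2.2.2, hx.2.1.1.2, hx.2.1.2⟩
  refine card_le_card_of_injOn (fun x => dec 0 (x.2.1.zip x.2.2)) ?_ ?_
  · intro x hx
    obtain ⟨h1, h2, h3, h4, h5⟩ := key x hx
    rw [mem_coe, mem_WF]
    have e1 : (x.2.1.zip x.2.2).map Prod.fst = x.2.1 := List.map_fst_zip (by omega)
    have e2 : (x.2.1.zip x.2.2).map Prod.snd = x.2.2 := List.map_snd_zip (by omega)
    refine ⟨by rw [dec_length, cost_eq, e2, h3], ?_⟩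
    refine SA_dec _ {((0, 0), 0)} {(0, 0)} (0, 0) 0 rfl ?_ ?_ (by rw [e1]; exact h5)
      (by rw [e1]; exact h4)
    · rintro y rfl; rfl
    · intro l hl
      simpa using hl
  · intro x hx y hy h
    obtain ⟨h1, h2, h3, h4, h5⟩ := key x hx
    obtain ⟨h1', h2', h3', h4', h5'⟩ := key y hy
    have e1 : (x.2.1.zip x.2.2).map Prod.fst = x.2.1 := List.map_fst_zip (by omega)
    have e2 : (x.2.1.zip x.2.2).map Prod.snd = x.2.2 := List.map_snd_zip (by omega)
    have e1' : (y.2.1.zip y.2.2).map Prod.fst = y.2.1 := List.map_fst_zip (by omega)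
    have e2' : (y.2.1.zip y.2.2).map Prod.snd = y.2.2 := List.map_snd_zip (by omega)
    have h6 := dec_inj _ _ 0
      (Ok_of_SA _ {(0, 0)} (0, 0) 0 rfl (by rw [e1]; exact h5) (by rw [e1]; exact h4))
      (Ok_of_SA _ {(0, 0)} (0, 0) 0 rfl (by rw [e1']; exact h5') (by rw [e1']; exact h4')) h
    have h7 : x.2.1 = y.2.1 := by rw [← e1, ← e1', h6]
    have h8 : x.2.2 = y.2.2 := by rw [← e2, ← e2', h6]
    obtain ⟨m, d, b⟩ := x
    obtain ⟨m', d', b'⟩ := y
    simp only at h7 h8 h1 h1'
    subst h7 h8
    obtain rfl : m = m' := by omega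
    rfl

/-! ### the upper bound -/

theorem HD_finite (p : ℤ × ℤ) (m : ℕ) : {d : List (Fin 3) | d.length = m ∧ HS ∅ p d}.Finite :=
  (List.finite_length_eq (Fin 3) m).subset fun _ h => h.1

noncomputable def HD (p : ℤ × ℤ) (m : ℕ) : Finset (List (Fin 3)) := (HD_finite p m).toFinset

theorem mem_HD (p : ℤ × ℤ) (m : ℕ) (d : List (Fin 3)) :
    d ∈ HD p m ↔ d.length = m ∧ HS ∅ p d := by
  rw [HD, Set.Finite.mem_toFinset, Set.mem_ofPred_eq]

theorem card_HD_succ (p : ℤ × ℤ) (m : ℕ) : (HD p (m + 1)).card ≤ 3 * (WH p m).card := by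
  have h : HD p (m + 1) ⊆ ((univ : Finset (Fin 3)) ×ˢ WH p m).image (fun x => x.2 ++ [x.1]) := by
    intro d hd
    rw [mem_HD] at hd
    obtain ⟨h1, h2⟩ := hd
    rcases d.eq_nil_or_concat with rfl | ⟨u, z, rfl⟩
    · simp at h1
    rw [List.concat_eq_append] at *
    rw [mem_image]
    refine ⟨(z, u), ?_, rfl⟩
    rw [mem_product, mem_WH]
    have h3 := (HS_concat u z ∅ p h2).2
    rw [insert_empty_eq] at h3
    exact ⟨mem_univ _, by simpa using h1, h3⟩
  refine (card_le_card h).trans (card_image_le.trans ?_)
  rw [card_product, card_univ, Fintype.card_fin]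

theorem card_HD_zero (p : ℤ × ℤ) : (HD p 0).card ≤ 1 := by
  rw [card_le_one]
  intro d hd d' hd'
  rw [mem_HD] at hd hd'
  rw [List.length_eq_zero_iff.1 hd.1, List.length_eq_zero_iff.1 hd'.1]

/-- beginning and end of a path -/
abbrev PT : Type := Bool × Option (Fin 3 × Option (Fin 3))

def pre (x : PT) : List (Fin 3) := if x.1 then [0] else []

def tl (x : PT) : List (Fin 3) :=
  match x.2 with
  | none => []
  | some (j, none) => [j]
  | some (j, some k) => [j, k]

def st (x : PT) : ℤ × ℤ := if x.1 then nb (0, 0) 0 else (0, 0)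

theorem exists_tl (b : Bool) (l : List (Fin 3)) (h : l.length ≤ 2) : ∃ x : PT, x.1 = b ∧ tl x = l := by
  match l with
  | [] => exact ⟨(b, none), rfl, rfl⟩
  | [j] => exact ⟨(b, some (j, none)), rfl, rfl⟩
  | [j, k] => exact ⟨(b, some (j, some k)), rfl, rfl⟩
  | _ :: _ :: _ :: _ => simp at h

theorem tl_length (x : PT) : (tl x).length ≤ 2 := by
  obtain ⟨b, (_ | ⟨j, (_ | k)⟩)⟩ := x <;> simp [tl]

theorem pre_length (x : PT) : (pre x).length ≤ 1 := by
  unfold pre
  split_ifs <;> simp

/-- the structure of the self-avoiding paths -/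
theorem structure_WF {n : ℕ} {e : List (Fin 3)} (he : e ∈ WF n) :
    ∃ (x : PT) (t : List (Fin 3 × Bool)), e = pre x ++ dec 0 t ++ tl x ∧
      HS ∅ (st x) (t.map Prod.fst) := by
  rw [mem_WF] at he
  obtain ⟨h1, h2⟩ := he
  by_cases hh : e.head? = some 0
  · cases e with
    | nil => simp at hh
    | cons j e =>
      simp only [List.head?_cons, Option.some.injEq] at hh
      subst hh
      simp only [SA, nbF_same] at h2
      obtain ⟨h3, h4⟩ := h2
      obtain ⟨t, l, h5, h6, h7⟩ := parse _ e le_rfl _ ∅ (nb (0, 0) 0) 0 (Set.mem_insert _ _)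
        (by simp) (by simp) (by
          intro h
          cases e with
          | nil => simp at h
          | cons k e =>
            simp only [List.head?_cons, Option.some.injEq] at h
            subst h
            simp only [SA, nbF_same, nb_nb] at h4
            exact h4.1 (by simp)) h4
      obtain ⟨x, hx1, hx2⟩ := exists_tl true l h6
      refine ⟨x, t, ?_, ?_⟩
      · rw [hx2, h5]
        simp [pre, hx1]
      · simpa [st, hx1] using h7
  · obtain ⟨t, l, h5, h6, h7⟩ := parse _ e le_rfl _ ∅ (0, 0) 0 (Set.mem_singleton _)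
      (by simp) (by simp) hh h2
    obtain ⟨x, hx1, hx2⟩ := exists_tl false l h6
    refine ⟨x, t, ?_, ?_⟩
    · rw [hx2, h5]
      simp [pre, hx1]
    · simpa [st, hx1] using h7

/-- an upper bound for the number of beginnings -/
noncomputable def hh (m : ℕ) : ℕ := if m = 0 then 1 else 3 * aH (m - 1)

theorem card_HD (x : PT) (m : ℕ) : (HD (st x) m).card ≤ hh m := by
  unfold hh
  split_ifs with h
  · subst h
    exact card_HD_zero _
  · obtain ⟨k, rfl⟩ : ∃ k, m = k + 1 := ⟨m - 1, by omega⟩
    refine (card_HD_succ _ _).trans ?_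
    rw [Nat.add_sub_cancel]
    unfold st
    split_ifs
    · rw [card_WH']
    · rw [card_WH]

noncomputable def T' (N : ℕ) : ℕ := ∑ m ∈ range (N + 1), hh m * D m N

/-- the upper bound -/
theorem upper (n : ℕ) : aF n ≤ 26 * ∑ c ∈ range 4, T' (n - c) := by
  rw [← card_WF]
  have hsub : WF n ⊆ (univ : Finset PT).biUnion (fun x =>
      ((range (n + 1)).sigma (fun m => HD (st x) m ×ˢ
        BB m (n - ((pre x).length + (tl x).length)))).image
        (fun y => pre x ++ dec 0 (y.2.1.zip y.2.2) ++ tl x)) := by
    intro e he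
    obtain ⟨x, t, h1, h2⟩ := structure_WF he
    rw [mem_WF] at he
    have hl := he.1
    rw [h1] at hl
    simp only [List.length_append, dec_length, cost_eq] at hl
    have h3 := cb_ge (t.map Prod.snd)
    rw [List.length_map] at h3
    rw [mem_biUnion]
    refine ⟨x, mem_univ _, ?_⟩
    rw [mem_image]
    refine ⟨⟨t.length, t.map Prod.fst, t.map Prod.snd⟩, ?_, ?_⟩
    · rw [mem_sigma, mem_product, mem_HD, mem_BB, mem_range]
      refine ⟨by simp only; omega, ⟨by simp, h2⟩, by simp, by simp only; omega⟩
    · have e1 : (t.map Prod.fst).zip (t.map Prod.snd) = t := by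
        rw [← List.unzip_fst, ← List.unzip_snd, List.zip_unzip]
      simp only [e1]
      exact h1.symm
  refine (card_le_card hsub).trans (card_biUnion_le.trans ?_)
  have hx : ∀ x : PT, (((range (n + 1)).sigma (fun m => HD (st x) m ×ˢ
        BB m (n - ((pre x).length + (tl x).length)))).image
        (fun y => pre x ++ dec 0 (y.2.1.zip y.2.2) ++ tl x)).card ≤
        ∑ c ∈ range 4, T' (n - c) := by
    intro x
    refine card_image_le.trans ?_
    rw [card_sigma]
    obtain ⟨c, hc⟩ : ∃ c, c = (pre x).length + (tl x).length := ⟨_, rfl⟩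
    have hc3 : c < 4 := by
      have := pre_length x
      have := tl_length x
      omega
    rw [← hc]
    refine le_trans ?_ (single_le_sum (f := fun c => T' (n - c)) (fun _ _ => Nat.zero_le _)
      (mem_range.2 hc3))
    unfold T'
    have h1 : ∑ m ∈ range (n + 1), (HD (st x) m ×ˢ BB m (n - c)).card ≤
        ∑ m ∈ range (n + 1), hh m * D m (n - c) := by
      refine sum_le_sum fun m _ => ?_
      rw [card_product, card_BB]
      exact Nat.mul_le_mul_right _ (card_HD x m)
    refine h1.trans (le_of_eq ?_)
    symm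
    refine sum_subset ?_ ?_
    · intro m hm
      rw [mem_range] at hm ⊢
      omega
    · intro m _ hm
      rw [mem_range] at hm
      rw [D_zero_of (Or.inl (by omega)), mul_zero]
  refine (sum_le_sum fun x _ => hx x).trans ?_
  rw [sum_const, smul_eq_mul]
  have : (univ : Finset PT).card = 26 := by
    rw [card_univ]
    rfl
  rw [this]

end H30.FT
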