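import Pool.Agent.H30.FT.Lim

/-!
# From the other lattice to the honeycomb lattice
-/

set_option autoImplicit false

namespace H30.FT

open Finset Filter Topology

theorem star (I J : Finset ℕ) :
    1 / 2 * ∑ m ∈ I, rH m * ∑ N ∈ J, q m N ≤ ∑ N ∈ J, rF N := by
  have h1 : ∀ N ∈ J, 1 / 2 * ∑ m ∈ I, rH m * q m N ≤ rF N := by
    intro N _
    refine le_trans ?_ (rF_low N)
    refine mul_le_mul_of_nonneg_left ?_ (by norm_num)
    rw [← sum_filter_add_sum_filter_not I (fun m => m < N + 1)]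
    have h0 : ∑ m ∈ I.filter (fun m => ¬ m < N + 1), rH m * q m N = 0 := by
      refine sum_eq_zero fun m hm => ?_
      rw [mem_filter] at hm
      rw [q_zero_of (Or.inl (by omega)), mul_zero]
    rw [h0, add_zero]
    refine sum_le_sum_of_subset_of_nonneg ?_ fun m _ _ => mul_nonneg (rH_pos m).le (q_nonneg _ _)
    intro m hm
    rw [mem_filter] at hm
    rw [mem_range]
    exact hm.2
  refine le_trans (le_of_eq ?_) (sum_le_sum h1)
  rw [← mul_sum, sum_comm]
  congr 1
  refine sum_congr rfl fun m _ => ?_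
  rw [mul_sum]

theorem E_bounds : 2 ≤ E ∧ E ≤ 3 := by
  have hp := p_sum
  have h2 := p2_pos
  have h3 := p3_pos
  unfold E
  constructor <;> linarith

section
variable {α : ℝ} (hF : ∀ ε : ℝ, 0 < ε → ∀ᶠ n : ℕ in atTop, |eF n - α * Real.log n| ≤ ε * Real.log n)
include hF

/-- the bound near `m` -/
theorem F_near {ε : ℝ} (hε : 0 < ε) : ∀ᶠ m : ℕ in atTop, ∀ N : ℕ, m ≤ 6 * N → N ≤ 6 * m →
    |eF N - α * Real.log m| ≤ ε * Real.log m + (|α| + ε) * Real.log 6 := by
  obtain ⟨M, hM⟩ := eventually_atTop.1 (hF ε hε)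
  filter_upwards [eventually_ge_atTop (6 * M + 6)] with m hm N h1 h2
  exact near_up hε.le (by omega) (by omega) h2 h1 (hM N (by omega))

theorem poly : ∃ B : ℝ, ∀ᶠ n : ℕ in atTop, |eH n| ≤ B * Real.log n := by
  have hl := log6
  refine ⟨3 + |α| + (|α| + 1) * Real.log 6, ?_⟩
  filter_upwards [F_near hF one_pos, eventually_ge_atTop 8,
    log_tend.eventually_ge_atTop 1] with m hm hm8 hlog
  rw [abs_of_nonneg (eH_nonneg m)]
  have hs := star {m} (Icc (2 * m) (3 * m))
  rw [sum_singleton] at hs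
  have h1 : ∑ N ∈ Icc (2 * m) (3 * m), q m N = 1 := by
    rw [← q_total m]
    refine sum_subset ?_ ?_
    · intro N hN
      rw [mem_Icc] at hN
      rw [mem_range]
      omega
    · intro N _ hN
      rw [mem_Icc] at hN
      exact q_zero_of (by omega)
  rw [h1, mul_one] at hs
  obtain ⟨Q, hQ⟩ : ∃ Q : ℝ, Q = α * Real.log m + (1 * Real.log m + (|α| + 1) * Real.log 6) :=
    ⟨_, rfl⟩
  have h2 : ∀ N ∈ Icc (2 * m) (3 * m), rF N ≤ Real.exp Q := by
    intro N hN
    rw [mem_Icc] at hN
    have h3 := (abs_le.1 (hm N (by omega) (by omega))).2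
    have h4 : eF N ≤ Q := by rw [hQ]; linarith
    rw [← Real.exp_le_exp] at h4
    unfold eF at h4
    rwa [Real.exp_log (rF_pos' (by omega))] at h4
  have h3 := hs.trans (sum_le_sum h2)
  rw [sum_const, nsmul_eq_mul, Nat.card_Icc] at h3
  have h4 : ((3 * m + 1 - 2 * m : ℕ) : ℝ) = m + 1 := by
    rw [show 3 * m + 1 - 2 * m = m + 1 by omega]
    push_cast
    ring
  rw [h4] at h3
  have hm0 : (8 : ℝ) ≤ m := by exact_mod_cast hm8
  have h5 : rH m ≤ (m : ℝ) ^ 2 * Real.exp Q := by
    have h6 := Real.exp_pos Q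
    have h7 : 2 * ((m : ℝ) + 1) ≤ (m : ℝ) ^ 2 := by nlinarith
    have h8 := mul_le_mul_of_nonneg_right h7 h6.le
    linarith
  have h6 := Real.log_le_log (rH_pos m) h5
  rw [Real.log_mul (by positivity) (Real.exp_pos _).ne', Real.log_exp, Real.log_pow] at h6
  push_cast at h6
  unfold eH
  have h7 := le_abs_self α
  have h8 : α * Real.log m ≤ |α| * Real.log m := mul_le_mul_of_nonneg_right h7 (by linarith)
  have h9 : (|α| + 1) * Real.log 6 ≤ (|α| + 1) * Real.log 6 * Real.log m := by
    have : 0 ≤ (|α| + 1) * Real.log 6 := by positivity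
    nlinarith
  nlinarith

end

/-- the scale of regularity -/
noncomputable def w (m : ℕ) : ℝ := √(m * Real.log m)

theorem w_le {η : ℝ} (hη : 0 < η) : ∀ᶠ m : ℕ in atTop, w m ≤ η * m := by
  have h1 := (Real.isLittleO_log_id_atTop).def (c := η ^ 2) (by positivity)
  have h2 := tendsto_natCast_atTop_atTop (R := ℝ) |>.eventually h1
  filter_upwards [h2, eventually_ge_atTop 1] with m h3 hm
  have hm1 : (1 : ℝ) ≤ m := by exact_mod_cast hm
  unfold w
  rw [Real.sqrt_le_left (by positivity)]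
  rw [Real.norm_of_nonneg (Real.log_nonneg hm1)] at h3
  simp only [id] at h3
  rw [Real.norm_of_nonneg (by linarith)] at h3
  nlinarith

theorem le_w (C : ℝ) {η : ℝ} (hη : 0 < η) : ∀ᶠ m : ℕ in atTop, C * √(m : ℝ) ≤ η * w m := by
  filter_upwards [log_tend.eventually_ge_atTop ((|C| / η) ^ 2), eventually_ge_atTop 1]
    with m h1 hm
  have hm1 : (1 : ℝ) ≤ m := by exact_mod_cast hm
  unfold w
  rw [Real.sqrt_mul (by positivity)]
  have h2 : |C| / η ≤ √(Real.log m) := Real.le_sqrt_of_sq_le h1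
  rw [div_le_iff₀ hη] at h2
  have h3 := le_abs_self C
  have h4 := Real.sqrt_nonneg (m : ℝ)
  calc C * √(m : ℝ) ≤ (√(Real.log m) * η) * √(m : ℝ) := mul_le_mul_of_nonneg_right (by linarith) h4
    _ = _ := by ring

theorem tele (n : ℕ) {s C : ℝ} (hs0 : 0 ≤ s) (hC0 : 0 ≤ C) (h1 : |eH (n + 1) - eH n| ≤ C) :
    ∀ k : ℕ, (∀ j, n ≤ j → j ≤ n + k → |eH (j + 2) - eH j| ≤ s) → |eH (n + k) - eH n| ≤ k * s + C
  | 0, _ => by simp [hC0]
  | 1, _ => by
      push_cast
      linarith
  | k + 2, h => by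
      have ih := tele n hs0 hC0 h1 k fun j h2 h3 => h j h2 (by omega)
      have h2 := h (n + k) (by omega) (by omega)
      have e : eH (n + (k + 2)) - eH n = (eH (n + k + 2) - eH (n + k)) + (eH (n + k) - eH n) := by
        rw [show n + (k + 2) = n + k + 2 by ring]
        ring
      rw [e]
      refine (abs_add_le _ _).trans ?_
      push_cast
      nlinarith

/-- regularity of the numbers of walks on the honeycomb lattice -/
theorem reg {B : ℝ} (hB : ∀ᶠ n : ℕ in atTop, |eH n| ≤ B * Real.log n) {ε : ℝ} (hε : 0 < ε) :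
    ∃ δ : ℝ, 0 < δ ∧ ∀ᶠ m : ℕ in atTop, ∀ m' : ℕ, |(m' : ℝ) - m| ≤ δ * w m →
      |eH m' - eH m| ≤ ε * Real.log m := by
  obtain ⟨R, hR, hsl⟩ := ser.slopes hB
  obtain ⟨C, N, hC⟩ := ser.st
  obtain ⟨M, hM⟩ := eventually_atTop.1 hsl
  refine ⟨ε / (4 * R), by positivity, ?_⟩
  filter_upwards [w_le (show 0 < 1 / (2 * (ε / (4 * R))) by positivity),
    eventually_ge_atTop (2 * (M + N) + 10), const_le |C| (show 0 < ε / 2 by linarith),
    log_tend.eventually_ge_atTop (Real.log 2)] with m hw hm hcl hl2 m' hm'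
  have hm1 : (1 : ℝ) ≤ m := by exact_mod_cast (by omega : 1 ≤ m)
  have hlog2 : 0 < Real.log 2 := Real.log_pos (by norm_num)
  have hlog : 0 < Real.log m := by linarith
  have hd : |(m' : ℝ) - m| ≤ m / 2 := by
    refine hm'.trans ?_
    calc ε / (4 * R) * w m ≤ ε / (4 * R) * (1 / (2 * (ε / (4 * R))) * m) :=
          mul_le_mul_of_nonneg_left hw (by positivity)
      _ = m / 2 := by field_simp
  -- the slopes
  obtain ⟨s, hs⟩ : ∃ s : ℝ, s = 2 * R * √(Real.log m / m) := ⟨_, rfl⟩
  have hs0 : 0 ≤ s := by rw [hs]; positivity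
  have hslope : ∀ j : ℕ, (m : ℝ) / 2 ≤ j → (j : ℝ) ≤ 2 * m → |eH (j + 2) - eH j| ≤ s := by
    intro j h1 h2
    have h1' : m ≤ 2 * j := by
      have : (m : ℝ) ≤ 2 * j := by linarith
      exact_mod_cast this
    refine (hM j (by omega)).trans ?_
    rw [hs, show 2 * R * √(Real.log m / m) = R * (2 * √(Real.log m / m)) by ring]
    refine mul_le_mul_of_nonneg_left ?_ hR.le
    have h3 : (2 : ℝ) * √(Real.log m / m) = √(4 * (Real.log m / m)) := by
      rw [Real.sqrt_mul (by norm_num), show (4 : ℝ) = 2 ^ 2 by norm_num,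
        Real.sqrt_sq (by norm_num)]
    rw [h3]
    refine Real.sqrt_le_sqrt ?_
    have hj0 : (0 : ℝ) < j := by linarith
    have h4 : Real.log j ≤ 2 * Real.log m := by
      have h5 := Real.log_le_log hj0 h2
      rw [Real.log_mul (by norm_num) (by linarith)] at h5
      linarith
    rw [div_le_iff₀ hj0]
    have h5 : (4 : ℝ) * (Real.log m / m) * j = 2 * Real.log m * (j / (m / 2)) := by
      field_simp
      ring
    rw [h5]
    have h6 : 1 ≤ (j : ℝ) / (m / 2) := by rw [le_div_iff₀ (by linarith)]; linarith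
    nlinarith
  have hprod : ε / (4 * R) * w m * s = ε / 2 * Real.log m := by
    have h1 : w m * √(Real.log m / m) = Real.log m := by
      unfold w
      rw [← Real.sqrt_mul (by positivity)]
      have : (m : ℝ) * Real.log m * (Real.log m / m) = Real.log m ^ 2 := by field_simp
      rw [this, Real.sqrt_sq hlog.le]
    rw [hs]
    calc ε / (4 * R) * w m * (2 * R * √(Real.log m / m)) =
        ε / (4 * R) * (2 * R) * (w m * √(Real.log m / m)) := by ring
      _ = ε / 2 * Real.log m := by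
          rw [h1]
          field_simp
          ring
  have hCa : 0 ≤ |C| := abs_nonneg C
  rcases le_total m m' with h | h
  · obtain ⟨k, rfl⟩ := Nat.exists_eq_add_of_le h
    have hk : (k : ℝ) ≤ ε / (4 * R) * w m := by
      have : |((m + k : ℕ) : ℝ) - m| = k := by
        push_cast
        rw [add_sub_cancel_left, abs_of_nonneg (Nat.cast_nonneg k)]
      rw [this] at hm'
      exact hm'
    have hk2 : (k : ℝ) ≤ m / 2 := by
      have : |((m + k : ℕ) : ℝ) - m| = k := by
        push_cast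
        rw [add_sub_cancel_left, abs_of_nonneg (Nat.cast_nonneg k)]
      rw [this] at hd
      exact hd
    have h1 := tele m hs0 hCa ((hC m (by omega)).trans (le_abs_self C)) k (by
      intro j h2 h3
      have h2' : (m : ℝ) ≤ j := by exact_mod_cast h2
      have h3' : (j : ℝ) ≤ m + k := by exact_mod_cast h3
      exact hslope j (by linarith) (by linarith))
    refine h1.trans ?_
    have h2 := mul_le_mul_of_nonneg_right hk hs0
    linarith
  · obtain ⟨k, hk0⟩ := Nat.exists_eq_add_of_le h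
    have hcast : (m : ℝ) = m' + k := by exact_mod_cast hk0
    have habs : |(m' : ℝ) - m| = k := by
      rw [hcast, sub_add_cancel_left, abs_neg, abs_of_nonneg (Nat.cast_nonneg k)]
    rw [habs] at hm' hd
    have hm2 : m ≤ 2 * m' := by
      have : (m : ℝ) ≤ 2 * m' := by linarith
      exact_mod_cast this
    have h1 := tele m' hs0 hCa ((hC m' (by omega)).trans (le_abs_self C)) k (by
      intro j h2 h3
      have h2' : (m' : ℝ) ≤ j := by exact_mod_cast h2
      have h3' : (j : ℝ) ≤ m' + k := by exact_mod_cast h3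
      exact hslope j (by linarith) (by linarith))
    rw [← hk0] at h1
    rw [abs_sub_comm]
    refine h1.trans ?_
    have h2 := mul_le_mul_of_nonneg_right hm' hs0
    linarith

end H30.FT
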