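import Pool.Agent.H30.FT.Rnw

/-!
# From the other lattice to the honeycomb lattice: the exponent
-/

set_option autoImplicit false

namespace H30.FT

open Finset Filter Topology

theorem farK {δ : ℝ} (hδ : 0 < δ) : ∀ᶠ m : ℕ in atTop, ∃ K : ℕ, 4 ≤ K ∧ K + 2 ≤ m ∧
    Real.exp (-((K : ℝ) ^ 2 / (8 * m))) ≤ Real.exp (-(δ ^ 2 / 128 * Real.log m)) ∧
    ∀ k : ℕ, k ≤ m + K → m ≤ k + K →
      |(k : ℝ) - m| ≤ δ * w m ∧ |((k - 1 : ℕ) : ℝ) - m| ≤ δ * w m := by
  filter_upwards [w_le (show 0 < 1 / δ by positivity), le_w 5 (show 0 < δ / 4 by positivity),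
    eventually_ge_atTop 8] with m h1 h2 hm
  have hm0 : (8 : ℝ) ≤ m := by exact_mod_cast hm
  have hlog : 0 ≤ Real.log m := Real.log_nonneg (by linarith)
  have hs : 1 ≤ √(m : ℝ) := by
    rw [Real.one_le_sqrt]
    linarith
  have h3 : δ * w m ≤ m := by
    calc δ * w m ≤ δ * (1 / δ * m) := mul_le_mul_of_nonneg_left h1 hδ.le
      _ = m := by field_simp
  have h4 : 5 ≤ δ / 4 * w m := by linarith
  obtain ⟨K, hK⟩ : ∃ K : ℕ, K = ⌊δ / 2 * w m⌋₊ := ⟨_, rfl⟩
  have hK1 : (K : ℝ) ≤ δ / 2 * w m := by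
    rw [hK]
    exact Nat.floor_le (by linarith)
  have hK2 : δ / 2 * w m < K + 1 := by
    rw [hK]
    exact Nat.lt_floor_add_one _
  have hK3 : δ / 4 * w m ≤ K := by linarith
  refine ⟨K, ?_, ?_, ?_, ?_⟩
  · have : (4 : ℝ) ≤ K := by linarith
    exact_mod_cast this
  · have : (K : ℝ) + 2 ≤ m := by linarith
    exact_mod_cast this
  · rw [Real.exp_le_exp, neg_le_neg_iff, le_div_iff₀ (by linarith)]
    have h5 : (δ / 4 * w m) ^ 2 ≤ (K : ℝ) ^ 2 := pow_le_pow_left₀ (by linarith) hK3 2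
    have h6 : w m ^ 2 = m * Real.log m := by
      unfold w
      rw [Real.sq_sqrt (by positivity)]
    rw [mul_pow, h6] at h5
    linarith
  · intro k h5 h6
    have h5' : (k : ℝ) ≤ m + K := by exact_mod_cast h5
    have h6' : (m : ℝ) ≤ k + K := by exact_mod_cast h6
    have h7 : ((k - 1 : ℕ) : ℝ) ≤ k := by exact_mod_cast Nat.sub_le k 1
    have h8 : (k : ℝ) ≤ ((k - 1 : ℕ) : ℝ) + 1 := by exact_mod_cast (by omega : k ≤ k - 1 + 1)
    rw [abs_le, abs_le]
    refine ⟨⟨?_, ?_⟩, ⟨?_, ?_⟩⟩ <;> linarith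

theorem floorN {m : ℕ} (hm : 8 ≤ m) : ∃ N : ℕ, |(N : ℝ) - E * m| ≤ 1 ∧ m + 4 ≤ N ∧ N ≤ 3 * m := by
  obtain ⟨hE2, hE3⟩ := E_bounds
  have hm0 : (8 : ℝ) ≤ m := by exact_mod_cast hm
  have h0 : 0 ≤ E * m := by nlinarith
  have h1 := Nat.floor_le h0
  have h2 := Nat.lt_floor_add_one (E * m)
  refine ⟨⌊E * m⌋₊, ?_, ?_, ?_⟩
  · rw [abs_le]
    constructor <;> linarith
  · have : (m : ℝ) + 4 ≤ ⌊E * m⌋₊ := by nlinarith
    exact_mod_cast this
  · have : (⌊E * m⌋₊ : ℝ) ≤ 3 * m := by nlinarith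
    exact_mod_cast this

section
variable {α : ℝ} (hF : ∀ ε : ℝ, 0 < ε → ∀ᶠ n : ℕ in atTop, |eF n - α * Real.log n| ≤ ε * Real.log n)
include hF

/-- the upper bound -/
theorem upH {ε : ℝ} (hε : 0 < ε) : ∀ᶠ m : ℕ in atTop, eH m ≤ (α + ε) * Real.log m := by
  obtain ⟨B, hB⟩ := poly hF
  obtain ⟨δ, hδ, hreg⟩ := reg hB (show 0 < ε / 4 by linarith)
  obtain ⟨c, hc, hcu⟩ := u_ge
  have hl := log6
  filter_upwards [hreg, farK hδ, F_near hF (show 0 < ε / 4 by linarith),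
    const_le (Real.log (8 / c)) (show 0 < δ ^ 2 / 128 by positivity),
    const_le ((|α| + ε / 4) * Real.log 6 - Real.log (c / 4)) (show 0 < ε / 2 by linarith),
    eventually_ge_atTop 8] with m h1 h2 h3 h4 h5 hm
  obtain ⟨K, hK4, hKm, hKe, hKn⟩ := h2
  obtain ⟨N, hN1, hN2, hN3⟩ := floorN hm
  have hfar := far hK4 hKm (hN1.trans (by norm_num))
  have h6 : 4 * Real.exp (-((K : ℝ) ^ 2 / (8 * m))) ≤ c / 2 := by
    have h7 : Real.exp (-(δ ^ 2 / 128 * Real.log m)) ≤ Real.exp (-Real.log (8 / c)) :=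
      Real.exp_le_exp.2 (by linarith)
    rw [Real.exp_neg (Real.log (8 / c)), Real.exp_log (by positivity), inv_div] at h7
    linarith
  have h7 : c / 2 ≤ ∑ k ∈ (range (N + 1)).filter (fun k => (k ≤ m + K ∧ m ≤ k + K)), q k N := by
    have h8 := hcu N (by omega)
    unfold u at h8
    rw [← sum_filter_add_sum_filter_not (range (N + 1)) (fun k => (k ≤ m + K ∧ m ≤ k + K))] at h8
    linarith
  obtain ⟨X, hX⟩ : ∃ X : ℝ, X = Real.exp (eH m - ε / 4 * Real.log m) := ⟨_, rfl⟩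
  have hX0 : 0 < X := hX ▸ Real.exp_pos _
  have h8 : 1 / 2 * (X * (c / 2)) ≤ rF N := by
    refine le_trans ?_ (rF_low N)
    refine mul_le_mul_of_nonneg_left ?_ (by norm_num)
    refine (mul_le_mul_of_nonneg_left h7 hX0.le).trans ?_
    rw [mul_sum]
    refine le_trans (sum_le_sum fun k hk => ?_)
      (sum_le_sum_of_subset_of_nonneg (filter_subset _ _) fun k _ _ =>
        mul_nonneg (rH_pos k).le (q_nonneg _ _))
    rw [mem_filter] at hk
    refine mul_le_mul_of_nonneg_right ?_ (q_nonneg _ _)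
    rw [rH_exp, hX, Real.exp_le_exp]
    have := (abs_le.1 (h1 k (hKn k hk.2.1 hk.2.2).1)).1
    linarith
  have h9 := Real.log_le_log (by positivity) h8
  have e : 1 / 2 * (X * (c / 2)) = (c / 4) * X := by ring
  rw [e, Real.log_mul (by positivity) hX0.ne', hX, Real.log_exp] at h9
  have h10 := (abs_le.1 (h3 N (by omega) (by omega))).2
  unfold eF at h10
  linarith

/-- the lower bound -/
theorem lowH {ε : ℝ} (hε : 0 < ε) : ∀ᶠ m : ℕ in atTop, (α - ε) * Real.log m ≤ eH m := by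
  obtain ⟨B, hB⟩ := poly hF
  obtain ⟨δ, hδ, hreg⟩ := reg hB (show 0 < ε / 4 by linarith)
  obtain ⟨η, hη⟩ : ∃ η : ℝ, η = δ ^ 2 / 128 := ⟨_, rfl⟩
  have hη0 : 0 < η := by rw [hη]; positivity
  obtain ⟨ε1, hε1⟩ : ∃ ε1 : ℝ, ε1 = min (ε / 4) (η / 4) := ⟨_, rfl⟩
  have h10 : 0 < ε1 := by rw [hε1]; exact lt_min (by linarith) (by linarith)
  have h11 : ε1 ≤ ε / 4 := hε1 ▸ min_le_left _ _
  have h12 : ε1 ≤ η / 4 := hε1 ▸ min_le_right _ _
  obtain ⟨M, hM⟩ := eventually_atTop.1 (upH hF (show 0 < η / 4 by linarith))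
  have hl := log6
  obtain ⟨C1, hC1⟩ : ∃ C1 : ℝ, C1 = (|α| + ε1) * Real.log 6 := ⟨_, rfl⟩
  obtain ⟨C2, hC2⟩ : ∃ C2 : ℝ, C2 = |α + η / 4| * Real.log 6 := ⟨_, rfl⟩
  filter_upwards [hreg, farK hδ, F_near hF h10,
    const_le (C1 + C2 + Real.log 2496) (show 0 < η / 2 by linarith),
    const_le (C1 + Real.log 624) (show 0 < ε / 4 by linarith),
    eventually_ge_atTop (6 * M + 40)] with m h1 h2 h3 h4 h5 hm
  obtain ⟨K, hK4, hKm, hKe, hKn⟩ := h2
  obtain ⟨N, hN1, hN2, hN3⟩ := floorN (show 8 ≤ m by omega)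
  rw [← hη] at hKe
  have hlog : 0 ≤ Real.log m := Real.log_natCast_nonneg _
  obtain ⟨X, hX⟩ : ∃ X : ℝ, X = Real.exp (eH m + ε / 4 * Real.log m) := ⟨_, rfl⟩
  obtain ⟨Y, hY⟩ : ∃ Y : ℝ, Y = Real.exp ((α + η / 4) * Real.log m + C2) := ⟨_, rfl⟩
  have hX0 : 0 < X := hX ▸ Real.exp_pos _
  have hY0 : 0 < Y := hY ▸ Real.exp_pos _
  -- the general bound
  have hYb : ∀ k : ℕ, m ≤ 6 * k → k ≤ 6 * m → rH k ≤ Y := by
    intro k hk1 hk2
    rw [rH_exp, hY, Real.exp_le_exp]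
    refine (hM k (by omega)).trans ?_
    have h6 := log_near (a := k) (b := m) (by omega) (by omega) hk2 hk1
    have h7 : (α + η / 4) * (Real.log k - Real.log m) ≤ |α + η / 4| * Real.log 6 := by
      refine (le_abs_self _).trans ?_
      rw [abs_mul]
      exact mul_le_mul_of_nonneg_left h6 (abs_nonneg _)
    rw [hC2]
    linarith
  have hc : ∀ c ∈ range 4, ∑ k ∈ range (N - c + 1), rH (k - 1) * q k (N - c) ≤
      X + Y * (4 * Real.exp (-(η * Real.log m))) := by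
    intro c hc
    rw [mem_range] at hc
    obtain ⟨N', hN'⟩ : ∃ N', N' = N - c := ⟨_, rfl⟩
    rw [← hN']
    have hNc : N = N' + c := by omega
    have hcast : (N : ℝ) = N' + c := by exact_mod_cast hNc
    have hc3 : (c : ℝ) ≤ 3 := by exact_mod_cast (by omega : c ≤ 3)
    have hc0 : (0 : ℝ) ≤ c := Nat.cast_nonneg c
    have hN4 : |(N' : ℝ) - E * m| ≤ 4 := by
      obtain ⟨h6, h7⟩ := abs_le.1 hN1
      rw [hcast] at h6 h7
      rw [abs_le]
      constructor <;> linarith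
    have hfar := (far hK4 hKm hN4).trans (mul_le_mul_of_nonneg_left hKe (by norm_num))
    rw [← sum_filter_add_sum_filter_not (range (N' + 1)) (fun k => (k ≤ m + K ∧ m ≤ k + K))]
    refine add_le_add ?_ ?_
    · have h6 : ∑ k ∈ (range (N' + 1)).filter (fun k => (k ≤ m + K ∧ m ≤ k + K)),
          rH (k - 1) * q k N' ≤ ∑ k ∈ (range (N' + 1)).filter
            (fun k => (k ≤ m + K ∧ m ≤ k + K)), X * q k N' := by
        refine sum_le_sum fun k hk => ?_
        rw [mem_filter] at hk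
        refine mul_le_mul_of_nonneg_right ?_ (q_nonneg _ _)
        rw [rH_exp, hX, Real.exp_le_exp]
        have := (abs_le.1 (h1 (k - 1) (hKn k hk.2.1 hk.2.2).2)).2
        linarith
      refine h6.trans ?_
      rw [← mul_sum]
      have h7 : ∑ k ∈ (range (N' + 1)).filter (fun k => (k ≤ m + K ∧ m ≤ k + K)), q k N' ≤ 1 := by
        refine le_trans ?_ (u_le N')
        unfold u
        exact sum_le_sum_of_subset_of_nonneg (filter_subset _ _) fun k _ _ => q_nonneg _ _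
      nlinarith
    · have h6 : ∑ k ∈ (range (N' + 1)).filter (fun k => ¬ (k ≤ m + K ∧ m ≤ k + K)),
          rH (k - 1) * q k N' ≤ ∑ k ∈ (range (N' + 1)).filter
            (fun k => ¬ (k ≤ m + K ∧ m ≤ k + K)), Y * q k N' := by
        refine sum_le_sum fun k _ => ?_
        by_cases h7 : N' < 2 * k ∨ 3 * k < N'
        · rw [q_zero_of h7]; simp
        · exact mul_le_mul_of_nonneg_right (hYb (k - 1) (by omega) (by omega)) (q_nonneg _ _)
      refine h6.trans ?_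
      rw [← mul_sum]
      exact mul_le_mul_of_nonneg_left hfar hY0.le
  have h6 := rF_up N (by omega)
  have h7 := sum_le_sum hc
  rw [sum_const, card_range, nsmul_eq_mul] at h7
  push_cast at h7
  have h8 := (abs_le.1 (h3 N (by omega) (by omega))).1
  have h9 : Real.exp ((α - ε1) * Real.log m - C1) ≤ rF N := by
    have h10 : Real.exp (eF N) = rF N := by
      unfold eF
      exact Real.exp_log (rF_pos' (by omega))
    rw [← h10, Real.exp_le_exp, hC1]
    linarith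
  obtain ⟨Z, hZ⟩ : ∃ Z : ℝ, Z = Real.exp ((α - ε1) * Real.log m - C1) := ⟨_, rfl⟩
  rw [← hZ] at h9
  have h13 : Y * (4 * Real.exp (-(η * Real.log m))) * 624 ≤ Z := by
    have h14 : Y * (4 * Real.exp (-(η * Real.log m))) * 624 =
        Real.exp ((α + η / 4) * Real.log m + C2 + -(η * Real.log m) + Real.log 2496) := by
      rw [Real.exp_add _ (Real.log 2496), Real.exp_log (by norm_num), Real.exp_add _ (-(η * Real.log m)),
        ← hY]
      ring
    rw [h14, hZ, Real.exp_le_exp]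
    have h15 : ε1 * Real.log m ≤ η / 4 * Real.log m := mul_le_mul_of_nonneg_right h12 hlog
    linarith
  have h14 : Z ≤ 624 * X := by linarith
  have hZ0 : 0 < Z := hZ ▸ Real.exp_pos _
  have h15 := Real.log_le_log hZ0 h14
  rw [Real.log_mul (by norm_num) hX0.ne', hX, hZ, Real.log_exp, Real.log_exp] at h15
  have h16 : ε1 * Real.log m ≤ ε / 4 * Real.log m := mul_le_mul_of_nonneg_right h11 hlog
  have h17 : 0 ≤ ε * Real.log m := mul_nonneg hε.le hlog
  linarith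

end

/-- from the other lattice to the honeycomb lattice -/
theorem FtoH {α : ℝ} (h : ∀ ε : ℝ, 0 < ε → ∀ᶠ n : ℕ in atTop,
    |eF n - α * Real.log n| ≤ ε * Real.log n) :
    ∀ ε : ℝ, 0 < ε → ∀ᶠ n : ℕ in atTop, |eH n - α * Real.log n| ≤ ε * Real.log n := by
  intro ε hε
  filter_upwards [upH h hε, lowH h hε] with n h1 h2
  rw [abs_le]
  constructor <;> linarith

/-- the exponents on the two lattices -/
theorem HF_iff (α : ℝ) :
    Tendsto (fun n : ℕ => eH n / Real.log n) atTop (𝓝 α) ↔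
      Tendsto (fun n : ℕ => eF n / Real.log n) atTop (𝓝 α) := by
  rw [tend_iff, tend_iff]
  exact ⟨HtoF, FtoH⟩

end H30.FT
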