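import Pool.Agent.H30.FT.Wd

/-!
# Decorated words
-/

set_option autoImplicit false

namespace H30.FT

/-- the third label -/
def third (i j : Fin 3) : Fin 3 := -(i + j)

theorem third_ne {i j : Fin 3} (h : i ≠ j) : third i j ≠ i ∧ third i j ≠ j := by
  revert i j; decide

theorem third_unique {i j k : Fin 3} (h : i ≠ j) (h1 : k ≠ i) (h2 : k ≠ j) : third i k = j := by
  revert i j k; decide

theorem third_cases {i j k : Fin 3} (h : i ≠ j) (h1 : k ≠ i) (h2 : k ≠ j) (l : Fin 3) :
    l = i ∨ l = j ∨ l = k := by
  revert i j k l; decide

/-- the word of a decorated path: every step `(j, b)` of the honeycomb lattice becomes `j j`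
(move to the corner `j`, cross the edge), or `c j j` with the third corner `c` if `b` is true -/
def dec : Fin 3 → List (Fin 3 × Bool) → List (Fin 3)
  | _, [] => []
  | i, (j, b) :: t => (if b then [third i j] else []) ++ j :: j :: dec j t

/-- the length of the decoded word -/
def cost : List (Fin 3 × Bool) → ℕ
  | [] => 0
  | (_, b) :: t => (if b then 3 else 2) + cost t

theorem dec_length (i : Fin 3) (t : List (Fin 3 × Bool)) : (dec i t).length = cost t := by
  induction t generalizing i with
  | nil => rfl
  | cons x t ih =>
    obtain ⟨j, b⟩ := x
    cases b <;> simp [dec, cost, ih] <;> omega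

/-- all positions except possibly the last one are distinct and outside `S` -/
def HS : Set (ℤ × ℤ) → ℤ × ℤ → List (Fin 3) → Prop
  | _, _, [] => True
  | S, p, j :: d => p ∉ S ∧ HS (insert p S) (nb p j) d

theorem nbF_same (p : ℤ × ℤ) (i : Fin 3) : nbF (p, i) i = (nb p i, i) := by simp [nbF]

theorem nbF_ne (p : ℤ × ℤ) {i j : Fin 3} (h : j ≠ i) : nbF (p, i) j = (p, j) := by simp [nbF, h]

/-- every self-avoiding path (which does not start with the step back) is a decorated path with a
short tail -/
theorem parse : ∀ (n : ℕ) (e : List (Fin 3)), e.length ≤ n →
    ∀ (X : Set ((ℤ × ℤ) × Fin 3)) (S : Set (ℤ × ℤ)) (p : ℤ × ℤ) (i : Fin 3), (p, i) ∈ X →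
    (∀ q ∈ S, ∃ j k, j ≠ k ∧ (q, j) ∈ X ∧ (q, k) ∈ X) → (p ∈ S → ∀ j, (p, j) ∈ X) →
    e.head? ≠ some i → SA nbF X (p, i) e →
    ∃ (t : List (Fin 3 × Bool)) (tl : List (Fin 3)), e = dec i t ++ tl ∧ tl.length ≤ 2 ∧
      HS S p (t.map Prod.fst) := by
  intro n
  induction n with
  | zero =>
    intro e he X S p i _ _ _ _ _
    have : e = [] := List.length_eq_zero_iff.1 (by omega)
    subst this
    exact ⟨[], [], by simp [dec], by simp, by simp [HS]⟩
  | succ n ih =>
    intro e he X S p i hpi hS hpS hhd hSA
    cases e with
    | nil => exact ⟨[], [], by simp [dec], by simp, by simp [HS]⟩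
    | cons j e1 =>
      have hji : j ≠ i := by
        rintro rfl
        exact hhd rfl
      simp only [SA, nbF_ne p hji] at hSA
      obtain ⟨hpj, hSA1⟩ := hSA
      have hpS' : p ∉ S := fun h => hpj (hpS h j)
      cases e1 with
      | nil => exact ⟨[], [j], by simp [dec], by simp, by simp [HS]⟩
      | cons k e2 =>
        simp only [SA] at hSA1
        by_cases hkj : k = j
        · subst hkj
          rw [nbF_same] at hSA1
          obtain ⟨h1, h2⟩ := hSA1
          have hne : nb p k ≠ p := nb_ne p k
          obtain ⟨t, tl, e1, e2', e3⟩ := ih e2 (by simp at he; omega)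
            (insert (nb p k, k) (insert (p, k) X)) (insert p S) (nb p k) k
            (Set.mem_insert _ _)
            (by
              rintro q (rfl | hq)
              · exact ⟨k, i, hji, by simp, by simp [hpi]⟩
              · obtain ⟨a, b, h3, h4, h5⟩ := hS q hq
                exact ⟨a, b, h3, by simp [h4], by simp [h5]⟩)
            (by
              rintro (h3 | h3)
              · exact absurd h3 hne
              · obtain ⟨a, b, h4, h5, h6⟩ := hS _ h3
                intro l
                have ha : a ≠ k := by
                  rintro rfl
                  exact h1 (by simp [h5])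
                have hb : b ≠ k := by
                  rintro rfl
                  exact h1 (by simp [h6])
                rcases third_cases h4 (Ne.symm ha) (Ne.symm hb) l with rfl | rfl | rfl
                · simp [h5]
                · simp [h6]
                · simp)
            (by
              intro h3
              cases e2 with
              | nil => simp at h3
              | cons l e3 =>
                simp only [List.head?_cons, Option.some.injEq] at h3
                subst h3
                simp only [SA, nbF_same, nb_nb] at h2
                exact h2.1 (by simp))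
            h2
          exact ⟨(k, false) :: t, tl, by simp [dec, e1], e2', by
            simp only [List.map_cons, HS]
            exact ⟨hpS', e3⟩⟩
        · rw [nbF_ne p hkj] at hSA1
          obtain ⟨h1, h2⟩ := hSA1
          have hki : k ≠ i := by
            rintro rfl
            exact h1 (by simp [hpi])
          cases e2 with
          | nil => exact ⟨[], [j, k], by simp [dec], by simp, by simp [HS]⟩
          | cons l e3 =>
            simp only [SA] at h2
            by_cases hlk : l = k
            · subst hlk
              rw [nbF_same] at h2
              obtain ⟨h3, h4⟩ := h2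
              have hne : nb p l ≠ p := nb_ne p l
              obtain ⟨t, tl, e1, e2', e3'⟩ := ih e3 (by simp at he; omega)
                (insert (nb p l, l) (insert (p, l) (insert (p, j) X))) (insert p S) (nb p l) l
                (Set.mem_insert _ _)
                (by
                  rintro q (rfl | hq)
                  · exact ⟨l, i, hki, by simp, by simp [hpi]⟩
                  · obtain ⟨a, b, h3, h4, h5⟩ := hS q hq
                    exact ⟨a, b, h3, by simp [h4], by simp [h5]⟩)
                (by
                  rintro (h5 | h5)
                  · exact absurd h5 hne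
                  · obtain ⟨a, b, h6, h7, h8⟩ := hS _ h5
                    intro m
                    have ha : a ≠ l := by
                      rintro rfl
                      exact h3 (by simp [h7])
                    have hb : b ≠ l := by
                      rintro rfl
                      exact h3 (by simp [h8])
                    rcases third_cases h6 (Ne.symm ha) (Ne.symm hb) m with rfl | rfl | rfl
                    · simp [h7]
                    · simp [h8]
                    · simp)
                (by
                  intro h5
                  cases e3 with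
                  | nil => simp at h5
                  | cons m e4 =>
                    simp only [List.head?_cons, Option.some.injEq] at h5
                    subst h5
                    simp only [SA, nbF_same, nb_nb] at h4
                    exact h4.1 (by simp))
                h4
              refine ⟨(l, true) :: t, tl, ?_, e2', by
                simp only [List.map_cons, HS]
                exact ⟨hpS', e3'⟩⟩
              have h5 : third i l = j := third_unique (Ne.symm hji) hki hkj
              simp [dec, e1, h5]
            · rw [nbF_ne p hlk] at h2
              exfalso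
              rcases third_cases (Ne.symm hji) hki hkj l with rfl | rfl | rfl
              · exact h2.1 (by simp [hpi])
              · exact h2.1 (by simp)
              · exact hlk rfl

/-- decorated paths are self-avoiding -/
theorem SA_dec (t : List (Fin 3 × Bool)) : ∀ (X : Set ((ℤ × ℤ) × Fin 3)) (S : Set (ℤ × ℤ))
    (p : ℤ × ℤ) (i : Fin 3), p ∈ S → (∀ x ∈ X, x.1 ∈ S) → (∀ l, (p, l) ∈ X → l = i) →
    (t.map Prod.fst).head? ≠ some i → SA nb S p (t.map Prod.fst) → SA nbF X (p, i) (dec i t) := by
  induction t with
  | nil => intro X S p i _ _ _ _ _; simp [dec, SA]
  | cons x t ih =>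
    obtain ⟨j, b⟩ := x
    intro X S p i hp hX hl hhd hSA
    have hji : j ≠ i := by
      rintro rfl
      exact hhd (by simp)
    simp only [List.map_cons, SA] at hSA
    obtain ⟨h1, h2⟩ := hSA
    have hpj : (p, j) ∉ X := fun h => hji (hl j h)
    have hne : nb p j ≠ p := nb_ne p j
    have hnx : ∀ l, (nb p j, l) ∉ X := fun l h => h1 (hX _ h)
    have hhd' : (t.map Prod.fst).head? ≠ some j := by
      intro h3
      cases t with
      | nil => simp at h3
      | cons y t =>
        simp only [List.map_cons, List.head?_cons, Option.some.injEq] at h3
        simp only [List.map_cons, SA, h3, nb_nb] at h2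
        exact h2.1 (by simp [hp])
    cases b with
    | false =>
      simp only [dec, Bool.false_eq_true, if_false, List.nil_append, SA, nbF_ne p hji, nbF_same]
      refine ⟨hpj, ?_, ?_⟩
      · simp only [Set.mem_insert_iff, Prod.mk.injEq, not_or]
        exact ⟨fun h => hne h.1, hnx j⟩
      · refine ih _ (insert (nb p j) S) (nb p j) j (Set.mem_insert _ _) ?_ ?_ hhd' h2
        · rintro x (rfl | rfl | hx)
          · simp
          · simp [hp]
          · exact Or.inr (hX x hx)
        · intro l h3
          simp only [Set.mem_insert_iff, Prod.mk.injEq, true_and] at h3
          rcases h3 with h3 | h3 | h3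
          · exact h3
          · exact absurd h3.1 hne
          · exact absurd h3 (hnx l)
    | true =>
      have hc := third_ne (Ne.symm hji)
      have hpc : (p, third i j) ∉ X := fun h => hc.1 (hl _ h)
      simp only [dec, if_true, List.cons_append, List.nil_append, SA, nbF_ne p hc.1,
        nbF_ne p (Ne.symm hc.2), nbF_same]
      refine ⟨hpc, ?_, ?_, ?_⟩
      · simp only [Set.mem_insert_iff, Prod.mk.injEq, true_and, not_or]
        exact ⟨Ne.symm hc.2, hpj⟩
      · simp only [Set.mem_insert_iff, Prod.mk.injEq, not_or]
        exact ⟨fun h => hne h.1, fun h => hne h.1, hnx j⟩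
      · refine ih _ (insert (nb p j) S) (nb p j) j (Set.mem_insert _ _) ?_ ?_ hhd' h2
        · rintro x (rfl | rfl | rfl | hx)
          · simp
          · simp [hp]
          · simp [hp]
          · exact Or.inr (hX x hx)
        · intro l h3
          simp only [Set.mem_insert_iff, Prod.mk.injEq, true_and] at h3
          rcases h3 with h3 | h3 | h3 | h3
          · exact h3
          · exact absurd h3.1 hne
          · exact absurd h3.1 hne
          · exact absurd h3 (hnx l)

/-- no two consecutive labels are equal -/
def Ok : Fin 3 → List (Fin 3 × Bool) → Prop
  | _, [] => True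
  | i, (j, _) :: t => j ≠ i ∧ Ok j t

theorem dec_inj (t t' : List (Fin 3 × Bool)) : ∀ i : Fin 3, Ok i t → Ok i t' → dec i t = dec i t' →
    t = t' := by
  induction t generalizing t' with
  | nil =>
    intro i _ _ h
    cases t' with
    | nil => rfl
    | cons x t' =>
      obtain ⟨j, b⟩ := x
      cases b <;> simp [dec] at h
  | cons x t ih =>
    obtain ⟨j, b⟩ := x
    intro i h1 h2 h
    cases t' with
    | nil => cases b <;> simp [dec] at h
    | cons x t' =>
      obtain ⟨j', b'⟩ := x
      have hc := third_ne (Ne.symm h1.1)
      have hc' := third_ne (Ne.symm h2.1)
      cases b with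
      | false =>
        cases b' with
        | false =>
          simp only [dec, Bool.false_eq_true, if_false, List.nil_append, List.cons.injEq] at h
          obtain ⟨rfl, -, h3⟩ := h
          rw [ih t' j h1.2 h2.2 h3]
        | true =>
          simp only [dec, Bool.false_eq_true, if_false, List.nil_append, if_true,
            List.cons_append, List.cons.injEq] at h
          obtain ⟨h3, h4, -⟩ := h
          exact absurd (h3.symm.trans h4) hc'.2
      | true =>
        cases b' with
        | false =>
          simp only [dec, Bool.false_eq_true, if_false, List.nil_append, if_true,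
            List.cons_append, List.cons.injEq] at h
          obtain ⟨h3, h4, -⟩ := h
          exact absurd (h3.trans h4.symm) hc.2
        | true =>
          simp only [dec, List.nil_append, if_true, List.cons_append, List.cons.injEq] at h
          obtain ⟨-, rfl, -, h3⟩ := h
          rw [ih t' j h1.2 h2.2 h3]

theorem Ok_of_SA (t : List (Fin 3 × Bool)) : ∀ (S : Set (ℤ × ℤ)) (p : ℤ × ℤ) (i : Fin 3),
    p ∈ S → (t.map Prod.fst).head? ≠ some i → SA nb S p (t.map Prod.fst) → Ok i t := by
  induction t with
  | nil => intro _ _ _ _ _ _; trivial
  | cons x t ih =>
    obtain ⟨j, b⟩ := x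
    intro S p i hp hhd hSA
    simp only [List.map_cons, SA] at hSA
    refine ⟨?_, ih (insert (nb p j) S) (nb p j) j (Set.mem_insert _ _) ?_ hSA.2⟩
    · rintro rfl
      exact hhd (by simp)
    · intro h3
      cases t with
      | nil => simp at h3
      | cons y t =>
        simp only [List.map_cons, List.head?_cons, Option.some.injEq] at h3
        have h2 := hSA.2
        simp only [List.map_cons, SA, h3, nb_nb] at h2
        exact h2.1 (by simp [hp])

/-- dropping the last label -/
theorem HS_concat (d : List (Fin 3)) (l : Fin 3) : ∀ (S : Set (ℤ × ℤ)) (p : ℤ × ℤ),
    HS S p (d ++ [l]) → p ∉ S ∧ SA nb (insert p S) p d := by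
  induction d with
  | nil => intro S p h; exact ⟨h.1, trivial⟩
  | cons j d ih =>
    intro S p h
    simp only [List.cons_append, HS] at h
    obtain ⟨h1, h2⟩ := h
    obtain ⟨h3, h4⟩ := ih _ _ h2
    exact ⟨h1, h3, h4⟩

end H30.FT
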