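import Pool.Agent.H30.FT.Prb

/-!
# The non-intersection probability on the two lattices
-/

set_option autoImplicit false

namespace H30.FT

open Finset Filter Topology

section
variable {X β : Type}

theorem tr_append_nodup (g : X → β → X) (a : X) (d d' : List β) (h : (tr g a (d ++ d')).Nodup) :
    (tr g a d).Nodup ∧ (tr g (en g a d) d').Nodup := by
  constructor
  · rw [tr_append] at h
    exact (List.nodup_append.1 h).1
  · induction d generalizing a with
    | nil => exact h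
    | cons j d ih =>
      simp only [List.cons_append, tr, List.nodup_cons] at h
      exact ih _ h.2

theorem W_sub [Finite β] {g : X → β → X} {σ : β → β} (h : Cay g σ) (o : X) (m n : ℕ) :
    (W g o (m + n)).ncard ≤ (W g o m).ncard * (W g o n).ncard := by
  rw [← Set.ncard_prod]
  refine Set.ncard_le_ncard_of_injOn (fun D => (D.take m, D.drop m)) ?_ ?_
    ((W_finite g o m).prod (W_finite g o n))
  · rintro D ⟨h1, h2⟩
    rw [← List.take_append_drop m D] at h2
    obtain ⟨h3, h4⟩ := tr_append_nodup g o _ _ h2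
    refine ⟨⟨?_, h3⟩, ?_, ?_⟩
    · rw [List.length_take]
      omega
    · rw [List.length_drop]
      omega
    · rw [h.nodup o (en g o (D.take m))]
      exact h4
  · intro D _ D' _ he
    simp only [Prod.mk.injEq] at he
    rw [← List.take_append_drop m D, ← List.take_append_drop m D', he.1, he.2]

end

theorem aF_gF (n : ℕ) : (W gF ((0, 0), 0) n).ncard = aF n := by
  rw [← paths_ncard gF cay_gF.inj _ (fun _ _ => Iff.rfl), aF,
    ← paths_ncard nbF nbF_inj (fun a b => ∃ j, b = gF a j) fun a b => (gF_iff a b).symm]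

theorem aF_sub (m n : ℕ) : aF (m + n) ≤ aF m * aF n := by
  rw [← aF_gF, ← aF_gF, ← aF_gF]
  exact W_sub cay_gF _ m n

theorem aF_mul (n k : ℕ) : aF (n * (k + 1)) ≤ aF n ^ (k + 1) := by
  induction k with
  | zero => simp
  | succ k ih =>
    rw [show n * (k + 1 + 1) = n * (k + 1) + n by ring, pow_succ]
    exact (aF_sub _ _).trans (Nat.mul_le_mul_right _ ih)

/-- the growth constant -/
noncomputable def muF : ℝ := 1 / y

theorem muF_gt : 1 < muF := by
  unfold muF
  rw [one_lt_div y_pos]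
  exact y_lt

theorem muF_eq : 1 / muF ^ 2 + 1 / muF ^ 3 = 1 / √(2 + √2) := by
  have h := y_eq
  have h1 : (1 : ℝ) / mu = y ^ 2 + y ^ 3 := by
    rw [div_eq_iff mu_pos.ne', mul_comm]
    exact h.symm
  have h2 : √(2 + √2) = mu := rfl
  rw [h2, h1]
  unfold muF
  have := y_pos.ne'
  field_simp

theorem rF_mu (n : ℕ) : rF n = aF n / muF ^ n := by
  unfold rF muF
  rw [one_div, inv_pow, div_inv_eq_mul]

theorem aF_low (n : ℕ) : muF ^ n ≤ aF n := by
  have hmu : 0 < muF := lt_trans one_pos muF_gt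
  obtain ⟨c, hc, h⟩ := rF_ge
  by_contra hlt
  push Not at hlt
  rcases n.eq_zero_or_pos with rfl | hn
  · have h1 := aF_sub 0 2
    have h2 := rF_pos' (n := 2) le_rfl
    have h3 : (1 : ℝ) ≤ aF 0 := by
      rcases Nat.eq_zero_or_pos (aF 0) with h4 | h4
      · exfalso
        rw [h4, zero_mul, zero_add] at h1
        have h5 : aF 2 = 0 := by omega
        unfold rF at h2
        rw [h5] at h2
        simp at h2
      · exact_mod_cast h4
    rw [pow_zero] at hlt
    linarith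
  have hx0 : (0 : ℝ) ≤ aF n / muF ^ n := by positivity
  have hx1 : (aF n : ℝ) / muF ^ n < 1 := by
    rw [div_lt_one (by positivity)]
    exact hlt
  obtain ⟨k, hk⟩ := exists_pow_lt_of_lt_one hc hx1
  have h1 : c ≤ rF (n * (k + 1 + 1)) := h _ (by nlinarith)
  have h2 : rF (n * (k + 1 + 1)) ≤ ((aF n : ℝ) / muF ^ n) ^ (k + 1 + 1) := by
    rw [rF_mu, div_pow, ← pow_mul]
    refine div_le_div_of_nonneg_right ?_ (by positivity)
    exact_mod_cast aF_mul n (k + 1)
  have h3 : ((aF n : ℝ) / muF ^ n) ^ (k + 1 + 1) ≤ (aF n / muF ^ n) ^ k :=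
    pow_le_pow_of_le_one hx0 hx1.le (by omega)
  linarith

theorem rF_one (n : ℕ) : 1 ≤ rF n := by
  have hmu : 0 < muF := lt_trans one_pos muF_gt
  rw [rF_mu, one_le_div (by positivity)]
  exact aF_low n

theorem eF_nonneg (n : ℕ) : 0 ≤ eF n := Real.log_nonneg (rF_one n)

theorem eF_up : ∃ K : ℝ, 0 ≤ K ∧ ∀ n : ℕ, 2 ≤ n → eF n ≤ K * Real.log n ^ 2 := by
  obtain ⟨K, hK, h⟩ := rF_exp
  refine ⟨K, hK, fun n hn => ?_⟩
  unfold eF
  have h1 := rF_one n
  rw [Real.log_le_iff_le_exp (by linarith)]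
  exact h n hn

theorem eH_up : ∃ K : ℝ, 0 ≤ K ∧ ∀ n : ℕ, 2 ≤ n → eH n ≤ K * Real.log n ^ 2 := by
  obtain ⟨K, hK, h⟩ := rH_up
  refine ⟨K, hK, fun n hn => ?_⟩
  unfold eH
  have h1 := rH_ge n
  rw [Real.log_le_iff_le_exp (by linarith)]
  exact h n hn

theorem aF_pos (n : ℕ) : (0 : ℝ) < aF n := by
  have hmu : 0 < muF := lt_trans one_pos muF_gt
  exact lt_of_lt_of_le (pow_pos hmu n) (aF_low n)

theorem aH_pos (n : ℕ) : (0 : ℝ) < aH n := lt_of_lt_of_le (pow_pos mu_pos n) (aH_low n)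

theorem logP_F (n : ℕ) : Real.log ((aF (2 * n) : ℝ) / (aF n : ℝ) ^ 2) = eF (2 * n) - 2 * eF n := by
  have hmu : 0 < muF := lt_trans one_pos muF_gt
  have h1 := aF_pos n
  have h2 := aF_pos (2 * n)
  unfold eF
  rw [rF_mu, rF_mu, Real.log_div h2.ne' (by positivity), Real.log_div h1.ne' (by positivity),
    Real.log_div h2.ne' (by positivity), Real.log_pow, Real.log_pow, Real.log_pow]
  push_cast
  ring

theorem logP_H (n : ℕ) : Real.log ((aH (2 * n) : ℝ) / (aH n : ℝ) ^ 2) = eH (2 * n) - 2 * eH n := by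
  have hmu := mu_pos
  have h1 := aH_pos n
  have h2 := aH_pos (2 * n)
  unfold eH rH
  rw [Real.log_div h2.ne' (by positivity), Real.log_div h1.ne' (by positivity),
    Real.log_div h2.ne' (by positivity), Real.log_pow, Real.log_pow, Real.log_pow]
  push_cast
  ring

/-- the unconditional lower bound -/
theorem P_low : ∃ K : ℝ, ∀ n : ℕ, 2 ≤ n →
    Real.exp (-(K * Real.log n ^ 2)) ≤ (aF (2 * n) : ℝ) / (aF n : ℝ) ^ 2 := by
  obtain ⟨K, hK, h⟩ := eF_up
  refine ⟨2 * K, fun n hn => ?_⟩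
  have h1 := aF_pos n
  have h2 := aF_pos (2 * n)
  rw [← Real.le_log_iff_exp_le (by positivity), logP_F]
  have h3 := h n hn
  have h4 := eF_nonneg (2 * n)
  linarith

theorem dbl_F (α : ℝ) :
    Tendsto (fun n : ℕ => Real.log ((aF (2 * n) : ℝ) / (aF n : ℝ) ^ 2) / Real.log n) atTop
      (𝓝 (-α)) ↔ Tendsto (fun n : ℕ => eF n / Real.log n) atTop (𝓝 α) := by
  obtain ⟨K, hK, h⟩ := eF_up
  simp only [logP_F]
  exact doubling (o_of_log2 (fun n _ => eF_nonneg n) h) α

theorem dbl_H (α : ℝ) :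
    Tendsto (fun n : ℕ => Real.log ((aH (2 * n) : ℝ) / (aH n : ℝ) ^ 2) / Real.log n) atTop
      (𝓝 (-α)) ↔ Tendsto (fun n : ℕ => eH n / Real.log n) atTop (𝓝 α) := by
  obtain ⟨K, hK, h⟩ := eH_up
  simp only [logP_H]
  exact doubling (o_of_log2 (fun n _ => eH_nonneg n) h) α

/-- the growth constant as a limit -/
theorem muF_lim : Tendsto (fun n : ℕ => (aF n : ℝ) ^ (1 / (n : ℝ))) atTop (𝓝 muF) := by
  have hmu : 0 < muF := lt_trans one_pos muF_gt
  obtain ⟨K, hK, h⟩ := eF_up
  have h1 : Tendsto (fun n : ℕ => eF n / n) atTop (𝓝 0) :=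
    o_of_log2 (fun n _ => eF_nonneg n) h
  have h2 : Tendsto (fun n : ℕ => muF * Real.exp (eF n / n)) atTop (𝓝 (muF * Real.exp 0)) :=
    ((Real.continuous_exp.tendsto 0).comp h1).const_mul muF
  rw [Real.exp_zero, mul_one] at h2
  refine h2.congr' ?_
  filter_upwards [eventually_ge_atTop 1] with n hn
  have hn0 : (0 : ℝ) < n := by exact_mod_cast hn
  have h3 : (aF n : ℝ) = muF ^ n * Real.exp (eF n) := by
    have h4 := rF_one n
    unfold eF
    rw [Real.exp_log (by linarith), rF_mu]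
    field_simp
  rw [h3, Real.mul_rpow (by positivity) (Real.exp_pos _).le, ← Real.rpow_natCast,
    ← Real.rpow_mul hmu.le, ← Real.exp_mul]
  congr 1
  · rw [mul_one_div_cancel hn0.ne', Real.rpow_one]
  · rw [mul_one_div]

end H30.FT
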