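import Pool.Agent.H30.FT.Cv2

/-!
# Paths as functions, and the doubling argument
-/

set_option autoImplicit false

namespace H30.FT

open Finset Filter Topology

section
variable {X : Type}

/-- self-avoiding paths as functions -/
def fpaths (A : X → X → Prop) (o : X) (n : ℕ) : Set (Fin (n + 1) → X) :=
  {f | f 0 = o ∧ Function.Injective f ∧ ∀ i : Fin n, A (f i.castSucc) (f i.succ)}

theorem ofFn_mem (A : X → X → Prop) (o : X) (n : ℕ) (f : Fin (n + 1) → X) :
    List.ofFn f ∈ paths A o n ↔ f ∈ fpaths A o n := by
  unfold paths fpaths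
  simp only [Set.mem_ofPred_eq, List.length_ofFn, true_and, List.nodup_ofFn]
  constructor
  · rintro ⟨h1, h2, h3⟩
    refine ⟨?_, h3, ?_⟩
    · simpa [List.ofFn_succ] using h1
    · intro i
      rw [List.isChain_ofFn] at h2
      exact h2 i.1 (by omega)
  · rintro ⟨h1, h2, h3⟩
    refine ⟨?_, ?_, h2⟩
    · simp [List.ofFn_succ, h1]
    · rw [List.isChain_ofFn]
      intro i hi
      exact h3 ⟨i, by omega⟩

theorem fpaths_ncard (A : X → X → Prop) (o : X) (n : ℕ) :
    (fpaths A o n).ncard = (paths A o n).ncard := by
  have h : paths A o n = (List.ofFn : (Fin (n + 1) → X) → List X) '' fpaths A o n := by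
    ext w
    constructor
    · intro hw
      have hl : w.length = n + 1 := hw.1
      refine ⟨fun i => w[i.1]'(by omega), ?_, ?_⟩
      · rw [← ofFn_mem]
        have : List.ofFn (fun i : Fin (n + 1) => w[i.1]'(by omega)) = w := by
          apply List.ext_getElem
          · simp only [List.length_ofFn, hl]
          · intro i h1 h2
            simp only [List.getElem_ofFn]
        rw [this]
        exact hw
      · apply List.ext_getElem
        · simp only [List.length_ofFn, hl]
        · intro i h1 h2
          simp only [List.getElem_ofFn]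
    · rintro ⟨f, hf, rfl⟩
      exact (ofFn_mem A o n f).2 hf
  rw [h, Set.ncard_image_of_injective]
  exact List.ofFn_injective

end

/-- the doubling argument -/
theorem doubling {v : ℕ → ℝ} (h0 : Tendsto (fun n : ℕ => v n / n) atTop (𝓝 0)) (α : ℝ) :
    Tendsto (fun n : ℕ => (v (2 * n) - 2 * v n) / Real.log n) atTop (𝓝 (-α)) ↔
      Tendsto (fun n : ℕ => v n / Real.log n) atTop (𝓝 α) := by
  have hl2 : 0 < Real.log 2 := Real.log_pos (by norm_num)
  rw [tend_iff, tend_iff]
  constructor
  · intro h ε hε
    obtain ⟨δ, hδ⟩ : ∃ δ : ℝ, δ = ε / 3 := ⟨_, rfl⟩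
    have hδ0 : 0 < δ := by linarith
    obtain ⟨M, hM⟩ := eventually_atTop.1 ((h (δ / 2) (by linarith)).and
      (const_le (|α| * Real.log 2) (show 0 < δ / 2 by linarith)))
    obtain ⟨t, ht⟩ : ∃ t : ℕ → ℝ, t = fun n => v n - α * Real.log n := ⟨_, rfl⟩
    have hstep : ∀ n : ℕ, M ≤ n → 1 ≤ n → |t (2 * n) - 2 * t n| ≤ δ * Real.log n := by
      intro n hn hn1
      obtain ⟨h1, h2⟩ := hM n hn
      have hn0 : (0 : ℝ) < n := by exact_mod_cast hn1
      have e : t (2 * n) - 2 * t n = (v (2 * n) - 2 * v n - -α * Real.log n) +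
          -(α * Real.log 2) := by
        rw [ht]
        simp only
        push_cast
        rw [Real.log_mul (by norm_num) hn0.ne']
        ring
      rw [e]
      refine (abs_add_le _ _).trans ?_
      rw [abs_neg, abs_mul, abs_of_pos hl2]
      linarith
    have hiter : ∀ (J n : ℕ), M ≤ n → 1 ≤ n → |t n| - (δ * Real.log n + δ * Real.log 2) ≤
        |t (2 ^ J * n)| / 2 ^ J := by
      intro J
      induction J with
      | zero =>
        intro n _ hn1
        have : 0 ≤ Real.log n := Real.log_natCast_nonneg _
        simp only [pow_zero, one_mul, div_one]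
        nlinarith
      | succ J ih =>
        intro n hn hn1
        have h1 := ih (2 * n) (by omega) (by omega)
        have h2 := hstep n hn hn1
        have hn0 : (0 : ℝ) < n := by exact_mod_cast hn1
        have h3 : 2 * |t n| ≤ |t (2 * n)| + δ * Real.log n := by
          have h4 : 2 * |t n| = |2 * t n| := by rw [abs_mul, abs_of_pos (by norm_num : (0 : ℝ) < 2)]
          rw [h4]
          have h5 : 2 * t n = t (2 * n) - (t (2 * n) - 2 * t n) := by ring
          rw [h5]
          refine (abs_sub _ _).trans ?_
          linarith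
        push_cast at h1
        rw [Real.log_mul (by norm_num) hn0.ne'] at h1
        rw [pow_succ, mul_assoc, pow_succ (2 : ℝ), ← div_div, le_div_iff₀ (by norm_num)]
        linarith
    have hlim : ∀ n : ℕ, 1 ≤ n → Tendsto (fun J : ℕ => |t (2 ^ J * n)| / 2 ^ J) atTop (𝓝 0) := by
      intro n hn
      have hn0 : (0 : ℝ) < n := by exact_mod_cast hn
      have h1 : Tendsto (fun N : ℕ => t N / N) atTop (𝓝 0) := by
        have h2 : Tendsto (fun N : ℕ => Real.log N / N) atTop (𝓝 0) := by
          have := (Real.isLittleO_log_id_atTop).tendsto_div_nhds_zero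
          exact this.comp tendsto_natCast_atTop_atTop
        have h3 := h0.sub (h2.const_mul α)
        rw [mul_zero, sub_zero] at h3
        refine h3.congr fun N => ?_
        rw [ht]
        simp only
        ring
      have h2 : Tendsto (fun J : ℕ => 2 ^ J * n) atTop atTop := by
        refine tendsto_atTop_mono (fun J => ?_) (tendsto_pow_atTop_atTop_of_one_lt (r := 2) (by norm_num))
        exact Nat.le_mul_of_pos_right _ hn
      have h3 := ((h1.comp h2).abs).mul_const (n : ℝ)
      rw [abs_zero, zero_mul] at h3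
      refine h3.congr fun J => ?_
      simp only [Function.comp]
      push_cast
      rw [abs_div, abs_of_pos (by positivity : (0 : ℝ) < 2 ^ J * n)]
      field_simp
    filter_upwards [eventually_ge_atTop (M + 1), const_le (Real.log 2) one_pos] with n hn h2
    have h3 : |t n| - (δ * Real.log n + δ * Real.log 2) ≤ 0 :=
      ge_of_tendsto (hlim n (by omega))
        (Eventually.of_forall fun J => hiter J n (by omega) (by omega))
    have h4 : t n = v n - α * Real.log n := by rw [ht]
    rw [← h4]
    have h5 := mul_le_mul_of_nonneg_left h2 hδ0.le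
    rw [hδ] at h3 h5
    have : 0 ≤ Real.log n := Real.log_natCast_nonneg _
    nlinarith
  · intro h ε hε
    have h1 := h (ε / 8) (by linarith)
    have h2 : Tendsto (fun n : ℕ => 2 * n) atTop atTop :=
      tendsto_atTop_mono (fun n => by simp only [id]; omega) tendsto_id
    filter_upwards [h1, h2.eventually h1, const_le (|α| * Real.log 2) (show 0 < ε / 4 by linarith),
      const_le (Real.log 2) one_pos, eventually_ge_atTop 1] with n h3 h4 h5 h6 hn
    have hn0 : (0 : ℝ) < n := by exact_mod_cast hn
    push_cast at h4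
    rw [Real.log_mul (by norm_num) hn0.ne'] at h4
    have h7 := abs_le.1 h3
    have h8 := abs_le.1 h4
    have h9 : |α * Real.log 2| ≤ ε / 4 * Real.log n := by
      rw [abs_mul, abs_of_pos hl2]
      exact h5
    have h10 := abs_le.1 h9
    have h11 : 0 ≤ ε * Real.log n := mul_nonneg hε.le (Real.log_natCast_nonneg _)
    have h12 : ε * Real.log 2 ≤ ε * Real.log n := mul_le_mul_of_nonneg_left (by linarith) hε.le
    rw [abs_le]
    constructor <;> linarith [h7.1, h7.2, h8.1, h8.2, h10.1, h10.2]

/-- quasi-polynomial bounds give the growth constant -/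
theorem o_of_log2 {v : ℕ → ℝ} {c K : ℝ} (h1 : ∀ n : ℕ, 2 ≤ n → c ≤ v n)
    (h2 : ∀ n : ℕ, 2 ≤ n → v n ≤ K * Real.log n ^ 2) :
    Tendsto (fun n : ℕ => v n / n) atTop (𝓝 0) := by
  have h3 : Tendsto (fun n : ℕ => c / (n : ℝ)) atTop (𝓝 0) :=
    tendsto_const_nhds.div_atTop tendsto_natCast_atTop_atTop
  have h4 : Tendsto (fun n : ℕ => K * (Real.log n ^ 2 / n)) atTop (𝓝 0) := by
    have h5 : Tendsto (fun x : ℝ => Real.log x ^ 2 / x) atTop (𝓝 0) := by
      have := isLittleO_log_rpow_rpow_atTop (s := 1) 2 (by norm_num)
      have h6 := this.tendsto_div_nhds_zero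
      refine h6.congr fun x => ?_
      norm_num
    have h6 := (h5.comp (tendsto_natCast_atTop_atTop (R := ℝ))).const_mul K
    rw [mul_zero] at h6
    exact h6
  refine tendsto_of_tendsto_of_tendsto_of_le_of_le' h3 h4 ?_ ?_
  · filter_upwards [eventually_ge_atTop 2] with n hn
    exact div_le_div_of_nonneg_right (h1 n hn) (Nat.cast_nonneg n)
  · filter_upwards [eventually_ge_atTop 2] with n hn
    rw [← mul_div_assoc]
    exact div_le_div_of_nonneg_right (h2 n hn) (Nat.cast_nonneg n)

end H30.FT
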