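import Pool.Agent.H30.FT.Fnl

/-!
# The two lattices as graphs
-/

set_option autoImplicit false

namespace H30.FT

open Finset Filter Topology

/-- the honeycomb lattice -/
def HexAdj (p q : ℤ × ℤ) : Prop :=
  q - p = (1, 0) ∨ q - p = (-1, 0) ∨ (q - p = (0, 1) ∧ Even (p.1 + p.2)) ∨
    (q - p = (0, -1) ∧ Even (q.1 + q.2))

theorem HexAdj_iff (p q : ℤ × ℤ) : HexAdj p q ↔ ∃ j, q = nb p j := by
  obtain ⟨p1, p2⟩ := p
  obtain ⟨q1, q2⟩ := q
  have hm : ∀ a b c d : ℤ, ((a, b) : ℤ × ℤ) - (c, d) = (a - c, b - d) := fun _ _ _ _ => rfl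
  unfold HexAdj
  simp only [hm, Prod.mk.injEq, Int.even_iff]
  by_cases h : Even (p1 + p2)
  · have hs : sg (p1, p2) = 1 := by unfold sg; rw [if_pos h]
    have h2 : (p1 + p2) % 2 = 0 := Int.even_iff.1 h
    constructor
    · rintro (⟨h3, h4⟩ | ⟨h3, h4⟩ | ⟨⟨h3, h4⟩, h5⟩ | ⟨⟨h3, h4⟩, h5⟩)
      · exact ⟨0, by ext <;> simp [nb, hs] <;> omega⟩
      · exact ⟨1, by ext <;> simp [nb, hs] <;> omega⟩
      · exact ⟨2, by ext <;> simp [nb, hs] <;> omega⟩
      · omega
    · rintro ⟨j, hj⟩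
      have h3 := congrArg Prod.fst hj
      have h4 := congrArg Prod.snd hj
      fin_cases j <;> simp [nb, hs] at h3 h4 <;> omega
  · have hs : sg (p1, p2) = -1 := by unfold sg; rw [if_neg h]
    have h2 : (p1 + p2) % 2 = 1 := by
      rw [Int.not_even_iff_odd, Int.odd_iff] at h
      exact h
    constructor
    · rintro (⟨h3, h4⟩ | ⟨h3, h4⟩ | ⟨⟨h3, h4⟩, h5⟩ | ⟨⟨h3, h4⟩, h5⟩)
      · exact ⟨1, by ext <;> simp [nb, hs] <;> omega⟩
      · exact ⟨0, by ext <;> simp [nb, hs] <;> omega⟩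
      · omega
      · exact ⟨2, by ext <;> simp [nb, hs] <;> omega⟩
    · rintro ⟨j, hj⟩
      have h3 := congrArg Prod.fst hj
      have h4 := congrArg Prod.snd hj
      fin_cases j <;> simp [nb, hs] at h3 h4 <;> omega

theorem aH_fpaths (n : ℕ) : (fpaths HexAdj (0, 0) n).ncard = aH n := by
  rw [fpaths_ncard, paths_ncard nb nb_inj HexAdj HexAdj_iff]
  rfl

/-- the vertices of the other lattice: the pairs (site, neighbour of the site) -/
def Cor : Type := {d : (ℤ × ℤ) × (ℤ × ℤ) // HexAdj d.1 d.2}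

/-- corners of the same triangle, or the two ends of a bond -/
def DodAdj (u v : Cor) : Prop := (u.1.1 = v.1.1 ∧ u ≠ v) ∨ (u.1.2 = v.1.1 ∧ v.1.2 = u.1.1)

/-- the corner of the triangle at `p` in the direction `i` -/
def cor (u : (ℤ × ℤ) × Fin 3) : Cor := ⟨(u.1, nb u.1 u.2), (HexAdj_iff _ _).2 ⟨u.2, rfl⟩⟩

theorem cor_inj : Function.Injective cor := by
  rintro ⟨p, i⟩ ⟨q, j⟩ h
  have h1 := congrArg Subtype.val h
  simp only [cor, Prod.mk.injEq] at h1
  obtain ⟨rfl, h2⟩ := h1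
  rw [nb_inj p h2]

theorem cor_surj : Function.Surjective cor := by
  rintro ⟨⟨p, q⟩, h⟩
  obtain ⟨i, hi⟩ := (HexAdj_iff _ _).1 h
  refine ⟨(p, i), Subtype.ext ?_⟩
  simp only [cor]
  simp only at hi
  rw [← hi]

theorem DodAdj_iff (u v : (ℤ × ℤ) × Fin 3) : DodAdj (cor u) (cor v) ↔ ∃ j, v = nbF u j := by
  obtain ⟨p, i⟩ := u
  obtain ⟨p', i'⟩ := v
  unfold DodAdj
  rw [cor_inj.ne_iff]
  simp only [cor, nbF]
  constructor
  · rintro (⟨rfl, h⟩ | ⟨h1, h2⟩)
    · refine ⟨i', ?_⟩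
      rw [if_neg]
      rintro rfl
      exact h rfl
    · refine ⟨i, ?_⟩
      rw [if_pos rfl]
      subst h1
      have h3 : nb (nb p i) i' = nb (nb p i) i := by rw [h2, nb_nb]
      rw [nb_inj _ h3]
  · rintro ⟨j, hj⟩
    split_ifs at hj with h
    · subst h
      rw [Prod.mk.injEq] at hj
      obtain ⟨rfl, rfl⟩ := hj
      right
      exact ⟨rfl, nb_nb _ _⟩
    · rw [Prod.mk.injEq] at hj
      obtain ⟨rfl, rfl⟩ := hj
      left
      refine ⟨rfl, ?_⟩
      rw [Ne, Prod.mk.injEq, not_and]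
      rintro _ rfl
      exact h rfl

theorem aF_fpaths (n : ℕ) : (fpaths DodAdj (cor ((0, 0), 0)) n).ncard = aF n := by
  have h : fpaths DodAdj (cor ((0, 0), 0)) n = (fun f => cor ∘ f) ''
      fpaths (fun u v => ∃ j, v = nbF u j) ((0, 0), 0) n := by
    ext f
    constructor
    · rintro ⟨h1, h2, h3⟩
      obtain ⟨r, hr⟩ := cor_surj.hasRightInverse
      refine ⟨r ∘ f, ⟨?_, ?_, ?_⟩, ?_⟩
      · apply cor_inj
        rw [Function.comp, hr, h1]
      · intro i j hij
        apply h2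
        have := congrArg cor hij
        simp only [Function.comp] at this
        rwa [hr, hr] at this
      · intro i
        rw [← DodAdj_iff]
        simp only [Function.comp]
        rw [hr, hr]
        exact h3 i
      · funext i
        simp only [Function.comp]
        rw [hr]
    · rintro ⟨g, ⟨h1, h2, h3⟩, rfl⟩
      refine ⟨?_, cor_inj.comp h2, ?_⟩
      · simp only [Function.comp]
        rw [h1]
      · intro i
        simp only [Function.comp]
        rw [DodAdj_iff]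
        exact h3 i
  rw [h, Set.ncard_image_of_injective, fpaths_ncard, paths_ncard nbF nbF_inj _ fun _ _ => Iff.rfl]
  · rfl
  · intro f g hfg
    funext i
    exact cor_inj (congrFun hfg i)

end H30.FT
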