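import Pool.Agent.H30.FT.Cnt
import Pool.Graph.R_pool_sql_team_seeded_2aa45f1a.Q215.SAW.GSer
import Pool.Graph.R_pool_sql_team_seeded_2aa45f1a.Q215.SAW.Lat
import Pool.Graph.R_pool_sql_team_seeded_2aa45f1a.Q215.SAW.SerB

/-!
# The honeycomb lattice: connection with the library
-/

set_option autoImplicit false

namespace H30.FT

open Finset Filter Topology TH966.AK

theorem hexA_iff (p q : ℤ × ℤ) : Hex.A p q ↔ ∃ j, q = nb p j := by
  rw [Hex.A_iff]
  by_cases h : Even (p.1 + p.2)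
  · have hs : sg p = 1 := by unfold sg; rw [if_pos h]
    have h2 : (p.1 + p.2) % 2 = 0 := Int.even_iff.1 h
    constructor
    · rintro (h3 | h3 | h3 | h3)
      · exact ⟨0, by ext <;> simp [nb, hs, h3]⟩
      · exact ⟨1, by ext <;> simp [nb, hs, h3]⟩
      · exact ⟨2, by ext <;> simp [nb, hs, h3]⟩
      · omega
    · rintro ⟨j, rfl⟩
      fin_cases j <;> simp [nb, hs] <;> omega
  · have hs : sg p = -1 := by unfold sg; rw [if_neg h]
    have h2 : (p.1 + p.2) % 2 = 1 := by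
      rw [Int.not_even_iff_odd, Int.odd_iff] at h
      exact h
    constructor
    · rintro (h3 | h3 | h3 | h3)
      · exact ⟨1, by ext <;> simp [nb, hs, h3]⟩
      · refine ⟨0, ?_⟩
        ext
        · simp only [nb, hs, if_true]; omega
        · simp [nb, h3]
      · omega
      · refine ⟨2, ?_⟩
        ext
        · simp [nb, h3]
        · simp only [nb, hs]; simp; omega
    · rintro ⟨j, rfl⟩
      fin_cases j <;> simp [nb, hs] <;> omega

theorem aH_eq (n : ℕ) : (Kw Hex.A n).card = aH n := by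
  have h : ((Kw Hex.A n : Finset (List (ℤ × ℤ))) : Set (List (ℤ × ℤ))) = paths Hex.A (0, 0) n := by
    ext w
    rw [Finset.mem_coe, Hex.rule.mem_K]
    unfold Walk paths
    simp only [Set.mem_ofPred_eq]
    constructor
    · rintro ⟨h1, h2, h3, h4⟩
      exact ⟨h1, h2, h4, h3⟩
    · rintro ⟨h1, h2, h3, h4⟩
      exact ⟨h1, h2, h4, h3⟩
  rw [← Set.ncard_coe_finset, h, paths_ncard nb nb_inj Hex.A hexA_iff]
  rfl

/-- the growth constant of the honeycomb lattice -/
noncomputable def mu : ℝ := Real.sqrt (2 + Real.sqrt 2)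

theorem growth : ∃ K : ℝ, Growth Hex.rule mu K := by
  obtain ⟨K, hK⟩ := Q215.SAW.hex_growth'
  rw [Q215.SAW.hex_mu'] at hK
  exact ⟨K, hK⟩

theorem mu_gt : 1 < mu := by
  unfold mu
  rw [Real.lt_sqrt (by norm_num)]
  have := Real.sqrt_nonneg 2
  linarith

theorem mu_pos : 0 < mu := lt_trans one_pos mu_gt

theorem aH_low (n : ℕ) : mu ^ n ≤ aH n := by
  obtain ⟨K, hK⟩ := growth
  rw [← aH_eq]
  exact hK.low n

/-- the normalised number of walks on the honeycomb lattice -/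
noncomputable def rH (n : ℕ) : ℝ := aH n / mu ^ n

theorem rH_ge (n : ℕ) : 1 ≤ rH n := by
  unfold rH
  rw [one_le_div (pow_pos mu_pos n)]
  exact aH_low n

theorem aH_rH (n : ℕ) : (aH n : ℝ) = rH n * mu ^ n := by
  unfold rH
  rw [div_mul_cancel₀ _ (pow_pos mu_pos n).ne']

theorem rH_up : ∃ K : ℝ, 0 ≤ K ∧ ∀ n : ℕ, 2 ≤ n → rH n ≤ Real.exp (K * Real.log n ^ 2) := by
  obtain ⟨K, hK⟩ := growth
  refine ⟨K, hK.hK, fun n hn => ?_⟩
  unfold rH
  rw [div_le_iff₀ (pow_pos mu_pos n), mul_comm, ← aH_eq]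
  exact hK.up n hn

theorem ser : Q215.SAW.Cvx.Ser (fun n => Real.log (rH n)) 2 := by
  obtain ⟨K, hK⟩ := growth
  have h := Q215.SAW.ser hK (F := fun _ => 1) (m := 0) (b := 1)
    ⟨TH966.AK.fn_one 0, le_rfl, fun _ _ _ _ _ _ => by norm_num⟩
  have e : (fun n => Real.log (TH966.AK.WF Hex.A (fun _ => 1) n / mu ^ n)) = fun n => Real.log (rH n) := by
    funext n
    rw [TH966.AK.WF_one, aH_eq]
    rfl
  rw [e] at h
  exact h

end H30.FT
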