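import Pool.Agent.H30.FT.Ren

/-!
# Growth of the numbers of walks: general bounds, and from the honeycomb lattice to the other one
-/

set_option autoImplicit false

namespace H30.FT

open Finset Filter Topology

theorem log_tend : Tendsto (fun n : ℕ => Real.log (n : ℝ)) atTop atTop :=
  Real.tendsto_log_atTop.comp tendsto_natCast_atTop_atTop

theorem tend_iff (f : ℕ → ℝ) (α : ℝ) :
    Tendsto (fun n : ℕ => f n / Real.log n) atTop (𝓝 α) ↔
      ∀ ε : ℝ, 0 < ε → ∀ᶠ n : ℕ in atTop, |f n - α * Real.log n| ≤ ε * Real.log n := by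
  rw [Metric.tendsto_nhds]
  constructor
  · intro h ε hε
    filter_upwards [h ε hε, log_tend.eventually_gt_atTop 0] with n h1 h2
    rw [Real.dist_eq] at h1
    have e : f n - α * Real.log n = (f n / Real.log n - α) * Real.log n := by
      field_simp
    rw [e, abs_mul, abs_of_pos h2]
    exact mul_le_mul_of_nonneg_right h1.le h2.le
  · intro h ε hε
    filter_upwards [h (ε / 2) (by linarith), log_tend.eventually_gt_atTop 0] with n h1 h2
    rw [Real.dist_eq]
    have e : f n / Real.log n - α = (f n - α * Real.log n) / Real.log n := by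
      field_simp
    rw [e, abs_div, abs_of_pos h2, div_lt_iff₀ h2]
    nlinarith

/-- constants are small -/
theorem const_le (C : ℝ) {η : ℝ} (hη : 0 < η) : ∀ᶠ n : ℕ in atTop, C ≤ η * Real.log n := by
  filter_upwards [log_tend.eventually_ge_atTop (C / η)] with n hn
  rw [div_le_iff₀ hη] at hn
  linarith

theorem log_near {a b : ℕ} (ha : 1 ≤ a) (hb : 1 ≤ b) (h1 : a ≤ 6 * b) (h2 : b ≤ 6 * a) :
    |Real.log a - Real.log b| ≤ Real.log 6 := by
  have ha0 : (0 : ℝ) < a := by exact_mod_cast ha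
  have hb0 : (0 : ℝ) < b := by exact_mod_cast hb
  rw [abs_le]
  constructor
  · have h := Real.log_le_log hb0 (show (b : ℝ) ≤ 6 * a by exact_mod_cast h2)
    rw [Real.log_mul (by norm_num) ha0.ne'] at h
    linarith
  · have h := Real.log_le_log ha0 (show (a : ℝ) ≤ 6 * b by exact_mod_cast h1)
    rw [Real.log_mul (by norm_num) hb0.ne'] at h
    linarith

theorem log6 : 0 < Real.log 6 := Real.log_pos (by norm_num)

/-- transport of a bound to a comparable number -/
theorem near_up {f : ℝ} {α ε : ℝ} (hε : 0 ≤ ε) {a b : ℕ} (ha : 1 ≤ a) (hb : 1 ≤ b)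
    (h1 : a ≤ 6 * b) (h2 : b ≤ 6 * a) (h : |f - α * Real.log a| ≤ ε * Real.log a) :
    |f - α * Real.log b| ≤ ε * Real.log b + (|α| + ε) * Real.log 6 := by
  have h3 := log_near ha hb h1 h2
  have e : f - α * Real.log b = (f - α * Real.log a) + α * (Real.log a - Real.log b) := by ring
  rw [e]
  refine (abs_add_le _ _).trans ?_
  rw [abs_mul]
  have h4 := mul_le_mul_of_nonneg_left h3 (abs_nonneg α)
  have h5 := (abs_le.1 h3).2
  have h6 := mul_le_mul_of_nonneg_left h5 hε
  linarith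

noncomputable def eH (n : ℕ) : ℝ := Real.log (rH n)
noncomputable def eF (n : ℕ) : ℝ := Real.log (rF n)

theorem rH_pos (n : ℕ) : 0 < rH n := lt_of_lt_of_le one_pos (rH_ge n)

theorem rH_exp (n : ℕ) : rH n = Real.exp (eH n) := (Real.exp_log (rH_pos n)).symm

theorem eH_nonneg (n : ℕ) : 0 ≤ eH n := Real.log_nonneg (rH_ge n)

/-- the general lower bound -/
theorem rF_ge : ∃ c : ℝ, 0 < c ∧ ∀ n, 2 ≤ n → c ≤ rF n := by
  obtain ⟨c, hc, h⟩ := u_ge
  refine ⟨c / 2, by linarith, fun n hn => ?_⟩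
  refine le_trans ?_ (rF_low n)
  have h1 : u n ≤ ∑ m ∈ range (n + 1), rH m * q m n := by
    unfold u
    refine sum_le_sum fun m _ => ?_
    have h2 := rH_ge m
    have h3 := q_nonneg m n
    nlinarith
  linarith [h n hn]

theorem rF_pos' {n : ℕ} (hn : 2 ≤ n) : 0 < rF n := by
  obtain ⟨c, hc, h⟩ := rF_ge
  linarith [h n hn]

/-- upper bound with a bound for the honeycomb lattice -/
theorem rF_le_of {n : ℕ} (hn : 3 ≤ n) {B : ℝ} (hB0 : 0 ≤ B)
    (hB : ∀ m : ℕ, n ≤ 3 * m + 3 → 2 * m ≤ n → rH (m - 1) ≤ B) : rF n ≤ 312 * B := by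
  refine (rF_up n hn).trans ?_
  have h : ∀ c ∈ range 4, ∑ m ∈ range (n - c + 1), rH (m - 1) * q m (n - c) ≤ B := by
    intro c hc
    rw [mem_range] at hc
    have h1 : ∑ m ∈ range (n - c + 1), rH (m - 1) * q m (n - c) ≤
        ∑ m ∈ range (n - c + 1), B * q m (n - c) := by
      refine sum_le_sum fun m _ => ?_
      by_cases h2 : n - c < 2 * m ∨ 3 * m < n - c
      · rw [q_zero_of h2]; simp
      · exact mul_le_mul_of_nonneg_right (hB m (by omega) (by omega)) (q_nonneg _ _)
    refine h1.trans ?_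
    rw [← mul_sum]
    have h3 := u_le (n - c)
    unfold u at h3
    nlinarith
  have h4 := sum_le_sum h
  rw [sum_const, card_range] at h4
  simp only [nsmul_eq_mul] at h4
  push_cast at h4
  linarith

theorem rF_ge_of {n : ℕ} {B : ℝ} (hB : ∀ m : ℕ, n ≤ 3 * m → 2 * m ≤ n → B ≤ rH m) :
    1 / 2 * (B * u n) ≤ rF n := by
  refine le_trans ?_ (rF_low n)
  refine mul_le_mul_of_nonneg_left ?_ (by norm_num)
  unfold u
  rw [mul_sum]
  refine sum_le_sum fun m _ => ?_
  by_cases h2 : n < 2 * m ∨ 3 * m < n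
  · rw [q_zero_of h2]; simp
  · exact mul_le_mul_of_nonneg_right (hB m (by omega) (by omega)) (q_nonneg _ _)

/-- the general upper bound -/
theorem rF_exp : ∃ K : ℝ, 0 ≤ K ∧ ∀ n : ℕ, 2 ≤ n → rF n ≤ Real.exp (K * Real.log n ^ 2) := by
  obtain ⟨K, hK, h⟩ := rH_up
  obtain ⟨C, hC⟩ : ∃ C : ℝ, C = max (rH 0) (rH 1) := ⟨_, rfl⟩
  have hC1 : 1 ≤ C := hC ▸ (rH_ge 0).trans (le_max_left _ _)
  have h1 : ∀ n : ℕ, 2 ≤ n → ∀ k, k ≤ n → rH k ≤ C * Real.exp (K * Real.log n ^ 2) := by
    intro n hn k hk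
    have hn1 : (1 : ℝ) ≤ n := by exact_mod_cast (by omega : 1 ≤ n)
    have hE : 1 ≤ Real.exp (K * Real.log n ^ 2) := by
      rw [Real.one_le_exp_iff]
      positivity
    rcases k with _ | _ | k
    · have : rH 0 ≤ C := hC ▸ le_max_left _ _
      nlinarith
    · have : rH (0 + 1) ≤ C := hC ▸ le_max_right _ _
      nlinarith
    · have h2 := h (k + 1 + 1) (by omega)
      have h3 : Real.log ((k + 1 + 1 : ℕ) : ℝ) ≤ Real.log n := by
        refine Real.log_le_log (by positivity) ?_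
        exact_mod_cast hk
      have h4 : 0 ≤ Real.log ((k + 1 + 1 : ℕ) : ℝ) := Real.log_natCast_nonneg _
      have h5 : Real.log ((k + 1 + 1 : ℕ) : ℝ) ^ 2 ≤ Real.log n ^ 2 := pow_le_pow_left₀ h4 h3 2
      have h6 := Real.exp_le_exp.2 (mul_le_mul_of_nonneg_left h5 hK)
      nlinarith
  have hl2 : 0 < Real.log 2 := Real.log_pos (by norm_num)
  obtain ⟨C', hC'⟩ : ∃ C' : ℝ, C' = 312 * C + |rF 2| := ⟨_, rfl⟩
  have hC1' : 1 ≤ C' := by
    have := abs_nonneg (rF 2)
    linarith
  refine ⟨K + Real.log C' / Real.log 2 ^ 2, ?_, fun n hn => ?_⟩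
  · have := Real.log_nonneg hC1'
    positivity
  have hn1 : (2 : ℝ) ≤ n := by exact_mod_cast hn
  have h2 : Real.log 2 ≤ Real.log n := Real.log_le_log (by norm_num) hn1
  have h3 : C' ≤ Real.exp (Real.log C' / Real.log 2 ^ 2 * Real.log n ^ 2) := by
    rw [← Real.log_le_iff_le_exp (by linarith)]
    have h4 : Real.log 2 ^ 2 ≤ Real.log n ^ 2 := pow_le_pow_left₀ hl2.le h2 2
    have h5 := Real.log_nonneg hC1'
    rw [div_mul_eq_mul_div, le_div_iff₀ (by positivity)]
    exact mul_le_mul_of_nonneg_left h4 h5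
  have hE : 1 ≤ Real.exp (K * Real.log n ^ 2) := by
    rw [Real.one_le_exp_iff]
    positivity
  rw [add_mul, Real.exp_add]
  rcases Nat.lt_or_ge n 3 with h4 | h4
  · obtain rfl : n = 2 := by omega
    have h5 : rF 2 ≤ C' := by
      have := le_abs_self (rF 2)
      have : 0 ≤ 312 * C := by linarith
      linarith
    have h6 := Real.exp_pos (Real.log C' / Real.log 2 ^ 2 * Real.log ((2 : ℕ) : ℝ) ^ 2)
    exact (h5.trans h3).trans (le_mul_of_one_le_left h6.le hE)
  · have h5 := rF_le_of h4 (B := C * Real.exp (K * Real.log n ^ 2)) (by positivity)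
      (fun m _ h7 => h1 n hn (m - 1) (by omega))
    have h6 : 312 * C ≤ C' := by
      have := abs_nonneg (rF 2)
      linarith
    calc rF n ≤ 312 * (C * Real.exp (K * Real.log n ^ 2)) := h5
      _ = Real.exp (K * Real.log n ^ 2) * (312 * C) := by ring
      _ ≤ _ := mul_le_mul_of_nonneg_left (h6.trans h3) (by linarith)

/-- from the honeycomb lattice to the other lattice -/
theorem HtoF {α : ℝ} (h : ∀ ε : ℝ, 0 < ε → ∀ᶠ n : ℕ in atTop,
    |eH n - α * Real.log n| ≤ ε * Real.log n) :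
    ∀ ε : ℝ, 0 < ε → ∀ᶠ n : ℕ in atTop, |eF n - α * Real.log n| ≤ ε * Real.log n := by
  intro ε hε
  obtain ⟨M, hM⟩ := eventually_atTop.1 (h (ε / 2) (by linarith))
  obtain ⟨c, hc, hcu⟩ := u_ge
  have hl := log6
  obtain ⟨C1, hC1⟩ : ∃ C1 : ℝ, C1 = (|α| + ε / 2) * Real.log 6 := ⟨_, rfl⟩
  filter_upwards [eventually_ge_atTop (6 * M + 50),
    const_le (C1 + |Real.log (c / 2)| + Real.log 312) (show 0 < ε / 2 by linarith)] with n hn hlog
  have h312 : 0 < Real.log 312 := Real.log_pos (by norm_num)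
  have habs := abs_nonneg (Real.log (c / 2))
  have key : ∀ k : ℕ, n ≤ 6 * k → k ≤ n →
      |eH k - α * Real.log n| ≤ ε / 2 * Real.log n + C1 := by
    intro k h1 h2
    rw [hC1]
    exact near_up (by linarith) (by omega) (by omega) (by omega) h1 (hM k (by omega))
  have hup : rF n ≤ 312 * Real.exp (α * Real.log n + (ε / 2 * Real.log n + C1)) := by
    refine rF_le_of (by omega) (Real.exp_pos _).le fun m h1 h2 => ?_
    rw [rH_exp, Real.exp_le_exp]
    have := (abs_le.1 (key (m - 1) (by omega) (by omega))).2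
    linarith
  have hlow : 1 / 2 * (Real.exp (α * Real.log n - (ε / 2 * Real.log n + C1)) * u n) ≤ rF n := by
    refine rF_ge_of fun m h1 h2 => ?_
    rw [rH_exp, Real.exp_le_exp]
    have := (abs_le.1 (key m (by omega) (by omega))).1
    linarith
  have hpos : 0 < rF n := rF_pos' (by omega)
  unfold eF
  rw [abs_le]
  constructor
  · have h1 : c / 2 * Real.exp (α * Real.log n - (ε / 2 * Real.log n + C1)) ≤ rF n := by
      refine le_trans ?_ hlow
      have h2 := hcu n (by omega)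
      have h3 := Real.exp_pos (α * Real.log n - (ε / 2 * Real.log n + C1))
      nlinarith
    have h2 := Real.log_le_log (by positivity) h1
    rw [Real.log_mul (by positivity) (Real.exp_pos _).ne', Real.log_exp] at h2
    have h3 := neg_abs_le (Real.log (c / 2))
    linarith
  · have h2 := Real.log_le_log hpos hup
    rw [Real.log_mul (by norm_num) (Real.exp_pos _).ne', Real.log_exp] at h2
    linarith

end H30.FT
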