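import Pool.Agent.H30.FT.Fin8
import Pool.Graph.R_seed8.TH232.Hex.Dis

/-!
# The lower bound for the number of paths
-/

set_option autoImplicit false

namespace H30.FT

open Finset Filter Topology

theorem saws_eq (n : ℕ) : H978R2.Hex.saws n = fpaths HexAdj (0, 0) n := rfl

theorem eH_low75 (n : ℕ) (hn : 1 ≤ n) : 1 / 75 * Real.log n - 1 ≤ eH n := by
  have h := Pool.Agent.TH232.Hex.Rn_lower75 n hn
  unfold H978R2.Hex.Rn at h
  rw [saws_eq, aH_fpaths] at h
  refine h.trans (le_of_eq ?_)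
  unfold eH rH
  rw [Real.log_div (aH_pos n).ne' (pow_pos mu_pos n).ne', Real.log_pow]
  rfl

theorem rF_low75 : ∃ c : ℝ, 0 < c ∧ ∀ n : ℕ, 1 ≤ n → c * (n : ℝ) ^ (1 / 75 : ℝ) ≤ rF n := by
  obtain ⟨c, hc, hcu⟩ := u_ge
  obtain ⟨D, hD⟩ : ∃ D : ℝ, D = Real.exp (-(1 / 75 * Real.log 3) - 1) := ⟨_, rfl⟩
  have hD0 : 0 < D := hD ▸ Real.exp_pos _
  refine ⟨min 1 (D * c / 2), lt_min one_pos (by positivity), fun n hn => ?_⟩
  have hn0 : (0 : ℝ) < n := by exact_mod_cast hn
  have hp : (n : ℝ) ^ (1 / 75 : ℝ) = Real.exp (1 / 75 * Real.log n) := by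
    rw [Real.rpow_def_of_pos hn0, mul_comm]
  rcases Nat.lt_or_ge n 2 with h1 | h1
  · obtain rfl : n = 1 := by omega
    have := rF_one 1
    simp only [Nat.cast_one, Real.one_rpow, mul_one]
    exact (min_le_left _ _).trans this
  · have h2 : 1 / 2 * (Real.exp (1 / 75 * (Real.log n - Real.log 3) - 1) * u n) ≤ rF n := by
      refine rF_ge_of fun m h3 h4 => ?_
      rw [rH_exp, Real.exp_le_exp]
      refine le_trans ?_ (eH_low75 m (by omega))
      have h5 : Real.log n ≤ Real.log 3 + Real.log m := by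
        rw [← Real.log_mul (by norm_num) (by
          have : (0 : ℝ) < m := by exact_mod_cast (by omega : 0 < m)
          exact this.ne')]
        refine Real.log_le_log hn0 ?_
        exact_mod_cast h3
      linarith
    have e : Real.exp (1 / 75 * (Real.log n - Real.log 3) - 1) = D * (n : ℝ) ^ (1 / 75 : ℝ) := by
      rw [hp, hD, ← Real.exp_add]
      congr 1
      ring
    rw [e] at h2
    have h3 := hcu n h1
    have h4 : 0 < D * (n : ℝ) ^ (1 / 75 : ℝ) := by positivity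
    have h5 : D * c / 2 * (n : ℝ) ^ (1 / 75 : ℝ) ≤ 1 / 2 * (D * (n : ℝ) ^ (1 / 75 : ℝ) * u n) := by
      have := mul_le_mul_of_nonneg_left h3 h4.le
      linarith
    have h6 : min 1 (D * c / 2) * (n : ℝ) ^ (1 / 75 : ℝ) ≤ D * c / 2 * (n : ℝ) ^ (1 / 75 : ℝ) :=
      mul_le_mul_of_nonneg_right (min_le_right _ _) (by positivity)
    linarith

theorem eF_low75 {α : ℝ} (h : Tendsto (fun n : ℕ => eF n / Real.log n) atTop (𝓝 α)) :
    1 / 75 ≤ α := by
  obtain ⟨c, hc, hr⟩ := rF_low75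
  have h1 : Tendsto (fun n : ℕ => 1 / 75 + Real.log c / Real.log n) atTop (𝓝 (1 / 75 + 0)) :=
    tendsto_const_nhds.add (tendsto_const_nhds.div_atTop log_tend)
  rw [add_zero] at h1
  refine le_of_tendsto_of_tendsto h1 h ?_
  filter_upwards [eventually_ge_atTop 1, log_tend.eventually_gt_atTop 0] with n hn hlog
  have hn0 : (0 : ℝ) < n := by exact_mod_cast hn
  have h2 := hr n hn
  have h3 := Real.log_le_log (by positivity) h2
  rw [Real.log_mul hc.ne' (by positivity), Real.log_rpow hn0] at h3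
  rw [le_div_iff₀ hlog, add_mul, div_mul_cancel₀ _ hlog.ne']
  unfold eF
  linarith

end H30.FT
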