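import Pool.Agent.H30.FT.Grf

/-!
# Pairs of paths which do not meet
-/

set_option autoImplicit false

namespace H30.FT

section
variable {X β : Type}

/-- the end of the path -/
def en (g : X → β → X) : X → List β → X
  | a, [] => a
  | a, j :: d => en g (g a j) d

theorem tr_append (g : X → β → X) (a : X) (d d' : List β) :
    tr g a (d ++ d') = tr g a d ++ (tr g (en g a d) d').tail := by
  induction d generalizing a with
  | nil =>
    simp only [List.nil_append, tr, en]
    rw [tr_eq g a d']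
    simp
  | cons j d ih => simp only [List.cons_append, tr, en, ih]

theorem en_append (g : X → β → X) (a : X) (d d' : List β) :
    en g a (d ++ d') = en g (en g a d) d' := by
  induction d generalizing a with
  | nil => rfl
  | cons j d ih => simp only [List.cons_append, en, ih]

theorem tr_rev (g : X → β → X) (σ : β → β) (hσ : ∀ a j, g (g a j) (σ j) = a) (a : X) (d : List β) :
    tr g (en g a d) (d.map σ).reverse = (tr g a d).reverse ∧
      en g (en g a d) (d.map σ).reverse = a := by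
  induction d generalizing a with
  | nil => simp [tr, en]
  | cons j d ih =>
    obtain ⟨h1, h2⟩ := ih (g a j)
    constructor
    · simp only [List.map_cons, List.reverse_cons, en, tr]
      rw [tr_append, h1, h2]
      simp [tr, hσ]
    · simp only [List.map_cons, List.reverse_cons, en]
      rw [en_append, h2]
      simp [en, hσ]

/-- labels as in a Cayley graph -/
structure Cay (g : X → β → X) (σ : β → β) : Prop where
  inv : ∀ a j, g (g a j) (σ j) = a
  sig : ∀ j, σ (σ j) = j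
  inj : ∀ a, Function.Injective (g a)
  hom : ∀ a b : X, ∃ φ : X → X, Function.Injective φ ∧ φ a = b ∧ ∀ x j, φ (g x j) = g (φ x) j

theorem Cay.nodup {g : X → β → X} {σ : β → β} (h : Cay g σ) (a b : X) (d : List β) :
    (tr g a d).Nodup ↔ (tr g b d).Nodup := by
  obtain ⟨φ, h1, h2, h3⟩ := h.hom a b
  have h4 := tr_map g g φ id h3 a d
  rw [List.map_id, h2] at h4
  rw [h4, List.nodup_map_iff h1]

/-- pairs of paths which do not meet after the start -/
def prs (A : X → X → Prop) (o : X) (n : ℕ) : Set ((Fin (n + 1) → X) × (Fin (n + 1) → X)) :=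
  {p | p.1 ∈ fpaths A o n ∧ p.2 ∈ fpaths A o n ∧ ∀ i j : Fin (n + 1), i ≠ 0 → p.1 i ≠ p.2 j}

/-- the same with lists -/
def lprs (A : X → X → Prop) (o : X) (n : ℕ) : Set (List X × List X) :=
  {q | q.1 ∈ paths A o n ∧ q.2 ∈ paths A o n ∧ ∀ x ∈ q.1.tail, x ∉ q.2}

theorem paths_ofFn {A : X → X → Prop} {o : X} {n : ℕ} {w : List X} (hw : w ∈ paths A o n) :
    ∃ f : Fin (n + 1) → X, List.ofFn f = w := by
  have hl : w.length = n + 1 := hw.1
  refine ⟨fun i => w[i.1]'(by omega), ?_⟩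
  apply List.ext_getElem
  · simp only [List.length_ofFn, hl]
  · intro i h1 h2
    simp only [List.getElem_ofFn]

theorem disj_iff {n : ℕ} (f f' : Fin (n + 1) → X) :
    (∀ x ∈ (List.ofFn f).tail, x ∉ List.ofFn f') ↔ ∀ i j : Fin (n + 1), i ≠ 0 → f i ≠ f' j := by
  rw [List.ofFn_succ, List.tail_cons]
  constructor
  · intro h i j hi he
    obtain ⟨k, rfl⟩ := Fin.exists_succ_eq.2 hi
    refine h (f k.succ) ?_ ?_
    · rw [List.mem_ofFn]
      exact ⟨k, rfl⟩
    · rw [List.mem_ofFn, he]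
      exact ⟨j, rfl⟩
  · intro h x hx hx'
    rw [List.mem_ofFn] at hx hx'
    obtain ⟨k, rfl⟩ := hx
    obtain ⟨j, hj⟩ := hx'
    exact h k.succ j (Fin.succ_ne_zero k) hj.symm

theorem prs_lprs (A : X → X → Prop) (o : X) (n : ℕ) : (prs A o n).ncard = (lprs A o n).ncard := by
  have h : lprs A o n =
      (fun p : (Fin (n + 1) → X) × (Fin (n + 1) → X) => (List.ofFn p.1, List.ofFn p.2)) ''
        prs A o n := by
    ext q
    constructor
    · rintro ⟨h1, h2, h3⟩
      obtain ⟨f, hf⟩ := paths_ofFn h1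
      obtain ⟨f', hf'⟩ := paths_ofFn h2
      rw [← hf] at h1
      rw [← hf'] at h2
      rw [← hf, ← hf', disj_iff] at h3
      refine ⟨(f, f'), ⟨(ofFn_mem A o n f).1 h1, (ofFn_mem A o n f').1 h2, h3⟩, ?_⟩
      simp only [hf, hf']
    · rintro ⟨⟨f, f'⟩, ⟨h1, h2, h3⟩, rfl⟩
      exact ⟨(ofFn_mem A o n f).2 h1, (ofFn_mem A o n f').2 h2, (disj_iff f f').2 h3⟩
  rw [h, Set.ncard_image_of_injective]
  rintro ⟨f, f'⟩ ⟨k, k'⟩ h
  simp only [Prod.mk.injEq] at h
  rw [List.ofFn_injective h.1, List.ofFn_injective h.2]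

theorem lprs_ncard {g : X → β → X} {σ : β → β} (h : Cay g σ) (A : X → X → Prop)
    (hA : ∀ a b, A a b ↔ ∃ j, b = g a j) (o : X) (n : ℕ) :
    (lprs A o n).ncard = (W g o (2 * n)).ncard := by
  have hss : ∀ d : List β, (d.map σ).map σ = d := by
    intro d
    rw [List.map_map]
    have : σ ∘ σ = id := by
      funext j
      exact h.sig j
    rw [this, List.map_id]
  have hrr : ∀ d : List β, (((d.map σ).reverse).map σ).reverse = d := by
    intro d
    rw [List.map_reverse, List.reverse_reverse, hss]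
  have key : ∀ d d2 : List β, ((tr g o ((d.map σ).reverse ++ d2)).Nodup ↔
      (tr g o d).Nodup ∧ (tr g o d2).Nodup ∧ ∀ x ∈ (tr g o d).tail, x ∉ tr g o d2) := by
    intro d d2
    obtain ⟨h1, h2⟩ := tr_rev g σ h.inv o d
    rw [h.nodup o (en g o d), tr_append, h1, h2, List.nodup_append]
    rw [List.nodup_reverse, tr_eq g o d, tr_eq g o d2]
    simp only [List.tail_cons, List.nodup_cons, List.mem_reverse, List.mem_cons]
    constructor
    · rintro ⟨⟨h3, h4⟩, h5, h6⟩
      refine ⟨⟨h3, h4⟩, ⟨fun h7 => h6 o (Or.inl rfl) o h7 rfl, h5⟩, ?_⟩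
      rintro x hx (rfl | h7)
      · exact h3 hx
      · exact h6 x (Or.inr hx) x h7 rfl
    · rintro ⟨⟨h3, h4⟩, ⟨h5, h6⟩, h7⟩
      refine ⟨⟨h3, h4⟩, h6, ?_⟩
      rintro x (rfl | hx) y hy rfl
      · exact h5 hy
      · exact h7 _ hx (Or.inr hy)
  have himg : lprs A o n = (fun D : List β => (tr g o ((D.take n).map σ).reverse,
      tr g o (D.drop n))) '' W g o (2 * n) := by
    ext ⟨w, w'⟩
    constructor
    · rintro ⟨h1, h2, h3⟩
      simp only at h1 h2 h3
      rw [paths_eq g A hA] at h1 h2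
      obtain ⟨d, hd, rfl⟩ := h1
      obtain ⟨d2, hd2, rfl⟩ := h2
      have hl : ((d.map σ).reverse).length = n := by
        rw [List.length_reverse, List.length_map, hd.1]
      refine ⟨(d.map σ).reverse ++ d2, ⟨?_, ?_⟩, ?_⟩
      · rw [List.length_append, hl, hd2.1]
        ring
      · rw [key]
        exact ⟨hd.2, hd2.2, h3⟩
      · simp only
        rw [List.take_left' hl, List.drop_left' hl, hrr]
    · rintro ⟨D, ⟨hD1, hD2⟩, hD⟩
      rw [Prod.mk.injEq] at hD
      obtain ⟨rfl, rfl⟩ := hD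
      have h4 := key ((D.take n).map σ).reverse (D.drop n)
      rw [hrr, List.take_append_drop] at h4
      obtain ⟨h5, h6, h7⟩ := h4.1 hD2
      refine ⟨?_, ?_, h7⟩
      · rw [paths_eq g A hA]
        refine ⟨_, ⟨?_, h5⟩, rfl⟩
        rw [List.length_reverse, List.length_map, List.length_take]
        omega
      · rw [paths_eq g A hA]
        refine ⟨_, ⟨?_, h6⟩, rfl⟩
        rw [List.length_drop]
        omega
  rw [himg, Set.InjOn.ncard_image]
  intro D hD D' hD' he
  simp only [Prod.mk.injEq] at he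
  have h1 := tr_inj g h.inj o _ _ he.1
  have h2 := tr_inj g h.inj o _ _ he.2
  have h3 : D.take n = D'.take n := by
    rw [← hrr (D.take n), ← hrr (D'.take n)]
    simp only [List.map_reverse, List.reverse_reverse] at h1 ⊢
    rw [List.reverse_inj] at h1
    rw [h1]
  rw [← List.take_append_drop n D, ← List.take_append_drop n D', h2, h3]

/-- the number of pairs which do not meet -/
theorem prs_ncard {g : X → β → X} {σ : β → β} (h : Cay g σ) (A : X → X → Prop)
    (hA : ∀ a b, A a b ↔ ∃ j, b = g a j) (o : X) (n : ℕ) :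
    (prs A o n).ncard = (fpaths A o (2 * n)).ncard := by
  rw [prs_lprs, lprs_ncard h A hA, fpaths_ncard, paths_ncard g h.inj A hA]

end

/-! ### the honeycomb lattice -/

theorem nb_val (p : ℤ × ℤ) : nb p 0 = (p.1 + sg p, p.2) ∧ nb p 1 = (p.1 - sg p, p.2) ∧
    nb p 2 = (p.1, p.2 + sg p) := by
  refine ⟨?_, ?_, ?_⟩ <;> simp [nb]

theorem sg_add (p v : ℤ × ℤ) (hv : Even (v.1 + v.2)) : sg (p.1 + v.1, p.2 + v.2) = sg p := by
  unfold sg
  have : Even (p.1 + v.1 + (p.2 + v.2)) ↔ Even (p.1 + p.2) := by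
    rw [show p.1 + v.1 + (p.2 + v.2) = (p.1 + p.2) + (v.1 + v.2) by ring, Int.even_add]
    simp [hv]
  simp only [this]

/-- the symmetries of the honeycomb lattice which keep the labels -/
theorem hom_nb (a b : ℤ × ℤ) : ∃ φ : ℤ × ℤ → ℤ × ℤ, Function.Injective φ ∧ φ a = b ∧
    ∀ x j, φ (nb x j) = nb (φ x) j := by
  have tra : ∀ a b : ℤ × ℤ, Even ((b.1 - a.1) + (b.2 - a.2)) → ∃ φ : ℤ × ℤ → ℤ × ℤ,
      Function.Injective φ ∧ φ a = b ∧ ∀ x j, φ (nb x j) = nb (φ x) j := by
    intro a b hab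
    refine ⟨fun x => (x.1 + (b.1 - a.1), x.2 + (b.2 - a.2)), ?_, ?_, ?_⟩
    · intro x x' h
      simp only [Prod.mk.injEq] at h
      ext <;> omega
    · ext <;> simp
    · intro x j
      have h1 := sg_add x (b.1 - a.1, b.2 - a.2) hab
      simp only at h1
      unfold nb
      rw [h1]
      split_ifs <;> ext <;> simp <;> ring
  by_cases h : Even ((b.1 - a.1) + (b.2 - a.2))
  · exact tra a b h
  · have h' : Even ((b.1 - (rf a).1) + (b.2 - (rf a).2)) := by
      rw [Int.not_even_iff_odd] at h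
      obtain ⟨k, hk⟩ := h
      unfold rf
      exact ⟨k + a.1 + a.2, by simp only; omega⟩
    obtain ⟨φ, h1, h2, h3⟩ := tra (rf a) b h'
    refine ⟨φ ∘ rf, h1.comp rf_inj, h2, fun x j => ?_⟩
    simp only [Function.comp]
    rw [nb_rf, h3]

theorem cay_nb : Cay nb id where
  inv := nb_nb
  sig := fun _ => rfl
  inj := nb_inj
  hom := hom_nb

/-! ### the other lattice -/

/-- labels relative to the corner -/
def gF (u : (ℤ × ℤ) × Fin 3) (k : Fin 3) : (ℤ × ℤ) × Fin 3 :=
  if k = 0 then (nb u.1 u.2, u.2) else (u.1, u.2 + k)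

/-- the rotation about the origin -/
def rot (p : ℤ × ℤ) : ℤ × ℤ :=
  if Even (p.1 + p.2) then (2 * p.2 - (p.1 + p.2) / 2, -((p.1 + p.2) / 2))
  else (2 * p.2 - (p.1 + p.2 - 1) / 2 - 1, -((p.1 + p.2 - 1) / 2))

theorem rot_even {x y k : ℤ} (h : x + y = 2 * k) : rot (x, y) = (2 * y - k, -k) := by
  unfold rot
  rw [if_pos ⟨k, by simp only; omega⟩]
  ext <;> simp only <;> omega

theorem rot_odd {x y k : ℤ} (h : x + y = 2 * k + 1) : rot (x, y) = (2 * y - k - 1, -k) := by
  unfold rot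
  rw [if_neg (by rw [Int.not_even_iff_odd]; exact ⟨k, by simp only; omega⟩)]
  ext <;> simp only <;> omega

theorem sg_even {x y k : ℤ} (h : x + y = 2 * k) : sg (x, y) = 1 := by
  unfold sg
  rw [if_pos ⟨k, by simp only; omega⟩]

theorem sg_odd {x y k : ℤ} (h : x + y = 2 * k + 1) : sg (x, y) = -1 := by
  unfold sg
  rw [if_neg (by rw [Int.not_even_iff_odd]; exact ⟨k, by simp only; omega⟩)]

theorem rot_nb (p : ℤ × ℤ) (j : Fin 3) : rot (nb p j) = nb (rot p) (j + 1) := by
  obtain ⟨x, y⟩ := p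
  rcases Int.even_or_odd' (x + y) with ⟨k, hk | hk⟩
  · rw [rot_even hk]
    have s1 : sg (x, y) = 1 := sg_even hk
    have s2 : sg (2 * y - k, -k) = 1 := sg_even (k := y - k) (by ring)
    obtain ⟨n1, n2, n3⟩ := nb_val (x, y)
    obtain ⟨m1, m2, m3⟩ := nb_val (2 * y - k, -k)
    rw [s1] at n1 n2 n3
    rw [s2] at m1 m2 m3
    fin_cases j
    · change rot (nb (x, y) 0) = nb (2 * y - k, -k) 1
      rw [n1, m2, rot_odd (k := k) (by simp only; omega)]
    · change rot (nb (x, y) 1) = nb (2 * y - k, -k) 2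
      rw [n2, m3, rot_odd (k := k - 1) (by simp only; omega)]
      ext <;> simp only <;> omega
    · change rot (nb (x, y) 2) = nb (2 * y - k, -k) 0
      rw [n3, m1, rot_odd (k := k) (by simp only; omega)]
      ext <;> simp only <;> omega
  · rw [rot_odd hk]
    have s1 : sg (x, y) = -1 := sg_odd hk
    have s2 : sg (2 * y - k - 1, -k) = -1 := sg_odd (k := y - k - 1) (by ring)
    obtain ⟨n1, n2, n3⟩ := nb_val (x, y)
    obtain ⟨m1, m2, m3⟩ := nb_val (2 * y - k - 1, -k)
    rw [s1] at n1 n2 n3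
    rw [s2] at m1 m2 m3
    fin_cases j
    · change rot (nb (x, y) 0) = nb (2 * y - k - 1, -k) 1
      rw [n1, m2, rot_even (k := k) (by simp only; omega)]
      ext <;> simp only <;> omega
    · change rot (nb (x, y) 1) = nb (2 * y - k - 1, -k) 2
      rw [n2, m3, rot_even (k := k + 1) (by simp only; omega)]
      ext <;> simp only <;> omega
    · change rot (nb (x, y) 2) = nb (2 * y - k - 1, -k) 0
      rw [n3, m1, rot_even (k := k) (by simp only; omega)]
      ext <;> simp only <;> omega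

theorem rot_inj : Function.Injective rot := by
  rintro ⟨x, y⟩ ⟨x', y'⟩ h
  rcases Int.even_or_odd' (x + y) with ⟨k, hk | hk⟩ <;>
    rcases Int.even_or_odd' (x' + y') with ⟨k', hk' | hk'⟩
  · rw [rot_even hk, rot_even hk', Prod.mk.injEq] at h
    ext <;> simp only <;> omega
  · rw [rot_even hk, rot_odd hk', Prod.mk.injEq] at h
    ext <;> simp only <;> omega
  · rw [rot_odd hk, rot_even hk', Prod.mk.injEq] at h
    ext <;> simp only <;> omega
  · rw [rot_odd hk, rot_odd hk', Prod.mk.injEq] at h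
    ext <;> simp only <;> omega

/-- symmetries -/
def Sym (a b : (ℤ × ℤ) × Fin 3) : Prop :=
  ∃ φ : (ℤ × ℤ) × Fin 3 → (ℤ × ℤ) × Fin 3, Function.Injective φ ∧ φ a = b ∧
    ∀ x j, φ (gF x j) = gF (φ x) j

theorem Sym.trans {a b c : (ℤ × ℤ) × Fin 3} (h1 : Sym a b) (h2 : Sym b c) : Sym a c := by
  obtain ⟨φ, h3, h4, h5⟩ := h1
  obtain ⟨ψ, h6, h7, h8⟩ := h2
  refine ⟨ψ ∘ φ, h6.comp h3, ?_, fun x j => ?_⟩
  · simp only [Function.comp, h4, h7]
  · simp only [Function.comp, h5, h8]

theorem Sym.tra (p q : ℤ × ℤ) (i : Fin 3) : Sym (p, i) (q, i) := by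
  obtain ⟨φ, h1, h2, h3⟩ := hom_nb p q
  refine ⟨fun u => (φ u.1, u.2), ?_, ?_, ?_⟩
  · rintro ⟨x, i⟩ ⟨y, j⟩ h
    simp only [Prod.mk.injEq] at h
    rw [h1 h.1, h.2]
  · simp only [h2]
  · rintro ⟨x, i⟩ j
    unfold gF
    simp only
    split_ifs <;> simp only [h3]

theorem Sym.rt (p : ℤ × ℤ) (i : Fin 3) : Sym (p, i) (rot p, i + 1) := by
  refine ⟨fun u => (rot u.1, u.2 + 1), ?_, rfl, ?_⟩
  · rintro ⟨x, i⟩ ⟨y, j⟩ h
    simp only [Prod.mk.injEq, add_left_inj] at h
    rw [rot_inj h.1, h.2]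
  · rintro ⟨x, i⟩ j
    unfold gF
    simp only
    split_ifs
    · simp only [rot_nb]
    · simp only [Prod.mk.injEq, true_and]
      exact add_right_comm _ _ _

theorem Sym.all (a b : (ℤ × ℤ) × Fin 3) : Sym a b := by
  obtain ⟨p, i⟩ := a
  obtain ⟨q, j⟩ := b
  have h1 : Sym (p, i) (q, i + 1) := (Sym.rt p i).trans (Sym.tra _ _ _)
  have h2 : Sym (p, i) (q, i + 1 + 1) := h1.trans ((Sym.rt q (i + 1)).trans (Sym.tra _ _ _))
  have h3 : ∀ i j : Fin 3, j = i ∨ j = i + 1 ∨ j = i + 1 + 1 := by decide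
  rcases h3 i j with rfl | rfl | rfl
  · exact Sym.tra _ _ _
  · exact h1
  · exact h2

theorem cay_gF : Cay gF (fun k => -k) where
  inv := by
    rintro ⟨p, i⟩ k
    unfold gF
    by_cases h : k = 0
    · subst h
      simp [nb_nb]
    · simp [h]
  sig := by simp
  inj := by
    rintro ⟨p, i⟩ j k h
    unfold gF at h
    simp only at h
    split_ifs at h with h1 h2 h2
    · rw [h1, h2]
    · rw [Prod.mk.injEq] at h
      exact absurd h.1 (nb_ne p i)
    · rw [Prod.mk.injEq] at h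
      exact absurd h.1.symm (nb_ne p i)
    · rw [Prod.mk.injEq, add_right_inj] at h
      exact h.2
  hom := Sym.all

theorem gF_iff (u v : (ℤ × ℤ) × Fin 3) : (∃ j, v = nbF u j) ↔ ∃ j, v = gF u j := by
  obtain ⟨p, i⟩ := u
  unfold nbF gF
  constructor
  · rintro ⟨j, hj⟩
    simp only at hj
    split_ifs at hj with h
    · refine ⟨0, ?_⟩
      rw [if_pos rfl, hj, h]
    · refine ⟨j - i, ?_⟩
      rw [if_neg (sub_ne_zero.2 h), hj]
      simp
  · rintro ⟨j, hj⟩
    simp only at hj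
    split_ifs at hj with h
    · refine ⟨i, ?_⟩
      simp only [if_true]
      exact hj
    · refine ⟨i + j, ?_⟩
      simp only
      rw [if_neg (by simpa using h)]
      exact hj

/-- the pairs of paths on the honeycomb lattice -/
theorem prs_hex (n : ℕ) : (prs HexAdj (0, 0) n).ncard = aH (2 * n) := by
  rw [prs_ncard cay_nb HexAdj HexAdj_iff, aH_fpaths]

/-- the pairs of paths on the other lattice -/
theorem prs_dod (n : ℕ) : (prs DodAdj (cor ((0, 0), 0)) n).ncard = aF (2 * n) := by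
  have h : prs DodAdj (cor ((0, 0), 0)) n = (fun p => (cor ∘ p.1, cor ∘ p.2)) ''
      prs (fun u v => ∃ j, v = nbF u j) ((0, 0), 0) n := by
    have hc : ∀ f : Fin (n + 1) → (ℤ × ℤ) × Fin 3, cor ∘ f ∈ fpaths DodAdj (cor ((0, 0), 0)) n ↔
        f ∈ fpaths (fun u v => ∃ j, v = nbF u j) ((0, 0), 0) n := by
      intro f
      unfold fpaths
      simp only [Set.mem_ofPred_eq, Function.comp, DodAdj_iff]
      constructor
      · rintro ⟨h1, h2, h3⟩
        exact ⟨cor_inj h1, fun i j hij => h2 (show cor (f i) = cor (f j) by rw [hij]), h3⟩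
      · rintro ⟨h1, h2, h3⟩
        exact ⟨by rw [h1], fun i j hij => h2 (cor_inj hij), h3⟩
    ext ⟨f, f'⟩
    constructor
    · rintro ⟨h1, h2, h3⟩
      obtain ⟨r, hr⟩ := cor_surj.hasRightInverse
      have e : ∀ f : Fin (n + 1) → Cor, cor ∘ (r ∘ f) = f := by
        intro f
        funext i
        simp only [Function.comp]
        rw [hr]
      refine ⟨(r ∘ f, r ∘ f'), ⟨?_, ?_, ?_⟩, ?_⟩
      · rw [← hc, e]
        exact h1
      · rw [← hc, e]
        exact h2
      · intro i j hi hij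
        refine h3 i j hi ?_
        have := congrArg cor hij
        simp only [Function.comp] at this
        rwa [hr, hr] at this
      · simp only [e]
    · rintro ⟨⟨g, g'⟩, ⟨h1, h2, h3⟩, hg⟩
      rw [Prod.mk.injEq] at hg
      obtain ⟨rfl, rfl⟩ := hg
      exact ⟨(hc g).2 h1, (hc g').2 h2, fun i j hi hij => h3 i j hi (cor_inj hij)⟩
  rw [h, Set.ncard_image_of_injective, prs_ncard cay_gF _ gF_iff, fpaths_ncard,
    paths_ncard nbF nbF_inj _ fun _ _ => Iff.rfl]
  · rfl
  · rintro ⟨f, f'⟩ ⟨g, g'⟩ hfg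
    simp only [Prod.mk.injEq] at hfg
    rw [Prod.mk.injEq]
    exact ⟨funext fun i => cor_inj (congrFun hfg.1 i), funext fun i => cor_inj (congrFun hfg.2 i)⟩

end H30.FT
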