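import Pool.Agent.H30.FT.Hex

/-!
# The random number of steps
-/

set_option autoImplicit false

namespace H30.FT

open Finset Filter Topology

theorem exists_y : ∃ y : ℝ, 0 < y ∧ y < 1 ∧ mu * (y ^ 2 + y ^ 3) = 1 := by
  have hc : ContinuousOn (fun y : ℝ => mu * (y ^ 2 + y ^ 3)) (Set.Icc 0 1) := by fun_prop
  have h1 : (1 : ℝ) ∈ Set.Icc ((fun y : ℝ => mu * (y ^ 2 + y ^ 3)) 0)
      ((fun y : ℝ => mu * (y ^ 2 + y ^ 3)) 1) := by
    have := mu_gt
    constructor <;> norm_num
    linarith
  obtain ⟨y, hy, h⟩ := intermediate_value_Icc (by norm_num : (0 : ℝ) ≤ 1) hc h1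
  simp only at h
  refine ⟨y, ?_, ?_, h⟩
  · rcases hy.1.lt_or_eq with h2 | h2
    · exact h2
    · rw [← h2] at h
      norm_num at h
  · rcases hy.2.lt_or_eq with h2 | h2
    · exact h2
    · rw [h2] at h
      have := mu_gt
      norm_num at h
      linarith

/-- the critical point of the other lattice -/
noncomputable def y : ℝ := exists_y.choose

theorem y_pos : 0 < y := exists_y.choose_spec.1
theorem y_lt : y < 1 := exists_y.choose_spec.2.1
theorem y_eq : mu * (y ^ 2 + y ^ 3) = 1 := exists_y.choose_spec.2.2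

noncomputable def p2 : ℝ := mu * y ^ 2
noncomputable def p3 : ℝ := mu * y ^ 3

theorem p2_pos : 0 < p2 := mul_pos mu_pos (pow_pos y_pos 2)
theorem p3_pos : 0 < p3 := mul_pos mu_pos (pow_pos y_pos 3)
theorem p_sum : p2 + p3 = 1 := by
  unfold p2 p3
  rw [← mul_add]
  exact y_eq

/-- the probability that the sum of `m` steps is `N` -/
noncomputable def q (m N : ℕ) : ℝ := D m N * mu ^ m * y ^ N

theorem q_nonneg (m N : ℕ) : 0 ≤ q m N :=
  mul_nonneg (mul_nonneg (Nat.cast_nonneg _) (pow_pos mu_pos m).le) (pow_pos y_pos N).le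

theorem q_zero (N : ℕ) : q 0 N = if N = 0 then 1 else 0 := by
  unfold q D
  split_ifs with h
  · subst h; simp
  · simp

theorem q_succ (m N : ℕ) : q (m + 1) N =
    (if 2 ≤ N then p2 * q m (N - 2) else 0) + (if 3 ≤ N then p3 * q m (N - 3) else 0) := by
  unfold q
  rw [D]
  push_cast
  rw [add_mul, add_mul]
  congr 1
  · split_ifs with h
    · obtain ⟨k, rfl⟩ : ∃ k, N = k + 2 := ⟨N - 2, by omega⟩
      rw [Nat.add_sub_cancel]
      unfold p2
      ring
    · simp
  · split_ifs with h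
    · obtain ⟨k, rfl⟩ : ∃ k, N = k + 3 := ⟨N - 3, by omega⟩
      rw [Nat.add_sub_cancel]
      unfold p3
      ring
    · simp

theorem q_zero_of {m N : ℕ} (h : N < 2 * m ∨ 3 * m < N) : q m N = 0 := by
  unfold q
  rw [D_zero_of h]
  simp

/-- the probability that `N` is the sum of some number of steps -/
noncomputable def u (N : ℕ) : ℝ := ∑ m ∈ range (N + 1), q m N

theorem u_ext {N M : ℕ} (h : N < M) : ∑ m ∈ range M, q m N = u N := by
  unfold u
  symm
  refine sum_subset ?_ ?_
  · intro m hm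
    rw [mem_range] at hm ⊢
    omega
  · intro m _ hm
    rw [mem_range] at hm
    exact q_zero_of (Or.inl (by omega))

theorem u_zero : u 0 = 1 := by
  unfold u
  simp [q_zero]

theorem u_rec (N : ℕ) (hN : 1 ≤ N) : u N =
    (if 2 ≤ N then p2 * u (N - 2) else 0) + (if 3 ≤ N then p3 * u (N - 3) else 0) := by
  have h : u N = ∑ m ∈ range N, q (m + 1) N + q 0 N := by
    unfold u
    rw [sum_range_succ']
  rw [h, q_zero, if_neg (by omega), add_zero]
  simp only [q_succ]
  rw [sum_add_distrib]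
  congr 1
  · split_ifs with h2
    · rw [← mul_sum, u_ext (by omega)]
    · simp
  · split_ifs with h2
    · rw [← mul_sum, u_ext (by omega)]
    · simp

theorem u_one : u 1 = 0 := by rw [u_rec 1 le_rfl]; norm_num
theorem u_two : u 2 = p2 := by rw [u_rec 2 (by norm_num)]; norm_num [u_zero]
theorem u_three : u 3 = p3 := by rw [u_rec 3 (by norm_num)]; norm_num [u_zero, u_one]
theorem u_four : u 4 = p2 * p2 := by rw [u_rec 4 (by norm_num)]; norm_num [u_two, u_one]

theorem u_step (N : ℕ) : u (N + 3) = p2 * u (N + 1) + p3 * u N := by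
  rw [u_rec (N + 3) (by omega), if_pos (by omega), if_pos (by omega)]
  rfl

theorem u_nonneg (N : ℕ) : 0 ≤ u N := sum_nonneg fun _ _ => q_nonneg _ _

theorem u_le (N : ℕ) : u N ≤ 1 := by
  have hp := p_sum
  have h2 := p2_pos
  have h3 := p3_pos
  induction N using Nat.strong_induction_on with
  | _ N ih =>
    rcases N with _ | _ | _ | N
    · exact u_zero.le
    · rw [u_one]; norm_num
    · rw [u_two]; linarith
    · rw [u_step]
      have h4 := ih (N + 1) (by omega)
      have h5 := ih N (by omega)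
      nlinarith

theorem u_ge : ∃ c : ℝ, 0 < c ∧ ∀ N, 2 ≤ N → c ≤ u N := by
  have hp := p_sum
  have h2 := p2_pos
  have h3 := p3_pos
  refine ⟨min (p2 * p2) p3, lt_min (mul_pos h2 h2) h3, ?_⟩
  obtain ⟨c, hc⟩ : ∃ c, c = min (p2 * p2) p3 := ⟨_, rfl⟩
  rw [← hc]
  have c1 : c ≤ p2 * p2 := hc ▸ min_le_left _ _
  have c2 : c ≤ p3 := hc ▸ min_le_right _ _
  intro N
  induction N using Nat.strong_induction_on with
  | _ N ih =>
    intro hN
    rcases N with _ | _ | _ | _ | _ | N
    · omega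
    · omega
    · rw [u_two]; nlinarith
    · rw [u_three]; exact c2
    · rw [u_four]; exact c1
    · rw [show N + 1 + 1 + 1 + 1 + 1 = (N + 2) + 3 by ring, u_step]
      have h4 := ih (N + 2 + 1) (by omega) (by omega)
      have h5 := ih (N + 2) (by omega) (by omega)
      nlinarith

/-- the generating function -/
theorem q_gen (m : ℕ) (z : ℝ) :
    ∑ N ∈ range (3 * m + 1), q m N * z ^ N = (p2 * z ^ 2 + p3 * z ^ 3) ^ m := by
  induction m with
  | zero => simp [q_zero]
  | succ m ih =>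
    have e1 : ∑ N ∈ range (3 * (m + 1) + 1), (if 2 ≤ N then p2 * q m (N - 2) else 0) * z ^ N =
        p2 * z ^ 2 * ∑ N ∈ range (3 * m + 1), q m N * z ^ N := by
      rw [show 3 * (m + 1) + 1 = (3 * m + 2) + 1 + 1 by ring, sum_range_succ', sum_range_succ',
        sum_range_succ]
      have h0 : q m (3 * m + 1) = 0 := q_zero_of (Or.inr (by omega))
      simp only [show ∀ k : ℕ, 2 ≤ k + 1 + 1 from fun k => by omega, if_true,
        show ∀ k : ℕ, k + 1 + 1 - 2 = k from fun k => by omega, h0]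
      norm_num
      rw [mul_sum]
      refine sum_congr rfl fun k _ => ?_
      ring
    have e2 : ∑ N ∈ range (3 * (m + 1) + 1), (if 3 ≤ N then p3 * q m (N - 3) else 0) * z ^ N =
        p3 * z ^ 3 * ∑ N ∈ range (3 * m + 1), q m N * z ^ N := by
      rw [show 3 * (m + 1) + 1 = (3 * m + 1) + 1 + 1 + 1 by ring, sum_range_succ',
        sum_range_succ', sum_range_succ']
      simp only [show ∀ k : ℕ, 3 ≤ k + 1 + 1 + 1 from fun k => by omega, if_true,
        show ∀ k : ℕ, k + 1 + 1 + 1 - 3 = k from fun k => by omega]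
      norm_num
      rw [mul_sum]
      refine sum_congr rfl fun k _ => ?_
      ring
    simp only [q_succ, add_mul]
    rw [sum_add_distrib, e1, e2, ih]
    ring

theorem q_total (m : ℕ) : ∑ N ∈ range (3 * m + 1), q m N = 1 := by
  have h := q_gen m 1
  simpa [p_sum] using h

/-- the mean step -/
noncomputable def E : ℝ := 2 * p2 + 3 * p3

theorem exp_le_quad {x : ℝ} (h : |x| ≤ 1) : Real.exp x ≤ 1 + x + x ^ 2 := by
  have h1 := Real.abs_exp_sub_one_sub_id_le h
  have h2 := (abs_le.1 h1).2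
  linarith

theorem chernoff (m : ℕ) {l : ℝ} (hl : |l| ≤ 1) :
    ∑ N ∈ range (3 * m + 1), q m N * Real.exp (l * (N - E * m)) ≤ Real.exp (l ^ 2 * m) := by
  have hp := p_sum
  have h2 := p2_pos
  have h3 := p3_pos
  have h4 : ∀ N : ℕ, q m N * Real.exp (l * (N - E * m)) =
      q m N * Real.exp l ^ N * Real.exp (-(l * E)) ^ m := by
    intro N
    rw [mul_assoc, ← Real.exp_nat_mul, ← Real.exp_nat_mul, ← Real.exp_add]
    congr 2
    ring
  simp only [h4]
  rw [← sum_mul, q_gen, ← mul_pow]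
  have h5 : (p2 * Real.exp l ^ 2 + p3 * Real.exp l ^ 3) * Real.exp (-(l * E)) =
      p2 * Real.exp (-(l * p3)) + p3 * Real.exp (l * p2) := by
    rw [← Real.exp_nat_mul, ← Real.exp_nat_mul, add_mul, mul_assoc, mul_assoc, ← Real.exp_add,
      ← Real.exp_add]
    have e : p2 = 1 - p3 := by linarith
    congr 2
    · congr 1
      unfold E
      push_cast
      rw [e]
      ring
    · congr 1
      unfold E
      push_cast
      rw [e]
      ring
  rw [h5]
  have h6 : |-(l * p3)| ≤ 1 := by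
    rw [abs_neg, abs_mul, abs_of_pos h3]
    have := abs_nonneg l
    nlinarith
  have h7 : |l * p2| ≤ 1 := by
    rw [abs_mul, abs_of_pos h2]
    have := abs_nonneg l
    nlinarith
  have h8 : p2 * Real.exp (-(l * p3)) + p3 * Real.exp (l * p2) ≤ 1 + l ^ 2 := by
    have h9 := mul_le_mul_of_nonneg_left (exp_le_quad h6) h2.le
    have h10 := mul_le_mul_of_nonneg_left (exp_le_quad h7) h3.le
    have h11 : p2 * (1 + -(l * p3) + (-(l * p3)) ^ 2) + p3 * (1 + l * p2 + (l * p2) ^ 2) =
        (p2 + p3) + l ^ 2 * (p2 * p3 * (p2 + p3)) := by ring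
    rw [hp] at h11
    have h12 : p2 * p3 * 1 ≤ 1 := by nlinarith
    have h13 := mul_le_mul_of_nonneg_left h12 (sq_nonneg l)
    linarith
  have h9 : 0 ≤ p2 * Real.exp (-(l * p3)) + p3 * Real.exp (l * p2) := by positivity
  have h10 : 1 + l ^ 2 ≤ Real.exp (l ^ 2) := by
    have := Real.add_one_le_exp (l ^ 2)
    linarith
  refine (pow_le_pow_left₀ h9 (h8.trans h10) m).trans (le_of_eq ?_)
  rw [← Real.exp_nat_mul]
  congr 1
  ring

/-- the tail of the sum of the steps -/
theorem tail (m : ℕ) (hm : 1 ≤ m) {x : ℝ} (hx : 0 ≤ x) (A : Finset ℕ)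
    (hA : ∀ N ∈ A, x ≤ |(N : ℝ) - E * m|) :
    ∑ N ∈ A, q m N ≤ 2 * Real.exp (-(x ^ 2 / (4 * m))) := by
  have hm0 : (0 : ℝ) < m := by exact_mod_cast hm
  have hp := p_sum
  have h2 := p2_pos
  have h3 := p3_pos
  -- reduce to the relevant values
  have hA' : ∑ N ∈ A, q m N ≤ ∑ N ∈ (range (3 * m + 1)).filter
      (fun N : ℕ => x ≤ |(N : ℝ) - E * m|), q m N := by
    rw [← sum_filter_add_sum_filter_not A (fun N => N < 3 * m + 1)]
    have h0 : ∑ N ∈ A.filter (fun N => ¬ N < 3 * m + 1), q m N = 0 := by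
      refine sum_eq_zero fun N hN => ?_
      rw [mem_filter] at hN
      exact q_zero_of (Or.inr (by omega))
    rw [h0, add_zero]
    refine sum_le_sum_of_subset_of_nonneg ?_ fun _ _ _ => q_nonneg _ _
    intro N hN
    rw [mem_filter] at hN
    rw [mem_filter, mem_range]
    exact ⟨hN.2, hA N hN.1⟩
  refine hA'.trans ?_
  by_cases hxm : 2 * (m : ℝ) < x
  · -- impossible
    have h0 : ∑ N ∈ (range (3 * m + 1)).filter (fun N : ℕ => x ≤ |(N : ℝ) - E * m|), q m N = 0 := by
      refine sum_eq_zero fun N hN => ?_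
      rw [mem_filter, mem_range] at hN
      by_cases hN2 : N < 2 * m
      · exact q_zero_of (Or.inl hN2)
      · exfalso
        have h4 : (2 : ℝ) * m ≤ N := by exact_mod_cast (by omega : 2 * m ≤ N)
        have h5 : (N : ℝ) ≤ 3 * m := by exact_mod_cast (by omega : N ≤ 3 * m)
        have h6 : |(N : ℝ) - E * m| ≤ m := by
          rw [abs_le]
          unfold E
          constructor <;> nlinarith
        linarith [hN.2]
    rw [h0]
    positivity
  push Not at hxm
  obtain ⟨l, hl⟩ : ∃ l : ℝ, l = x / (2 * m) := ⟨_, rfl⟩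
  have hl0 : 0 ≤ l := by rw [hl]; positivity
  have hl1 : l ≤ 1 := by rw [hl, div_le_one (by positivity)]; exact hxm
  have c1 := chernoff m (l := l) (by rw [abs_of_nonneg hl0]; exact hl1)
  have c2 := chernoff m (l := -l) (by rw [abs_neg, abs_of_nonneg hl0]; exact hl1)
  have key : ∑ N ∈ (range (3 * m + 1)).filter (fun N : ℕ => x ≤ |(N : ℝ) - E * m|), q m N *
      Real.exp (l * x) ≤ ∑ N ∈ range (3 * m + 1), (q m N * Real.exp (l * (N - E * m)) +
        q m N * Real.exp (-l * (N - E * m))) := by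
    refine (sum_le_sum fun N hN => ?_).trans
      (sum_le_sum_of_subset_of_nonneg (filter_subset _ _) fun N _ _ => ?_)
    · rw [mem_filter] at hN
      rw [← mul_add]
      refine mul_le_mul_of_nonneg_left ?_ (q_nonneg _ _)
      rcases le_abs.1 hN.2 with h4 | h4
      · have := Real.exp_le_exp.2 (mul_le_mul_of_nonneg_left h4 hl0)
        have h5 := Real.exp_pos (-l * (N - E * m))
        linarith
      · have := Real.exp_le_exp.2 (mul_le_mul_of_nonneg_left h4 hl0)
        have h5 := Real.exp_pos (l * (N - E * m))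
        have e : l * -((N : ℝ) - E * m) = -l * (N - E * m) := by ring
        rw [e] at this
        linarith
    · have := q_nonneg m N
      positivity
  rw [← sum_mul, sum_add_distrib] at key
  have e1 : Real.exp (l ^ 2 * m) + Real.exp ((-l) ^ 2 * m) = 2 * Real.exp (l ^ 2 * m) := by
    rw [neg_sq]; ring
  have h4 : (∑ N ∈ (range (3 * m + 1)).filter (fun N : ℕ => x ≤ |(N : ℝ) - E * m|), q m N) *
      Real.exp (l * x) ≤ 2 * Real.exp (l ^ 2 * m) := by linarith
  rw [← le_div_iff₀ (Real.exp_pos _), mul_div_assoc, ← Real.exp_sub] at h4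
  refine h4.trans (le_of_eq ?_)
  congr 2
  rw [hl]
  field_simp
  ring

/-- the normalised number of walks on the other lattice -/
noncomputable def rF (n : ℕ) : ℝ := aF n * y ^ n

theorem rF_low (N : ℕ) : 1 / 2 * ∑ m ∈ range (N + 1), rH m * q m N ≤ rF N := by
  have h1 := lower N
  have h2 : (∑ m ∈ range (N + 1), aH m * D m N : ℕ) ≤ 2 * aF N := by
    have h3 : ∑ m ∈ range (N + 1), aH m * D m N ≤
        ∑ m ∈ range (N + 1), 2 * ((WH0 m).card * D m N) := by
      refine sum_le_sum fun m _ => ?_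
      rw [← mul_assoc]
      exact Nat.mul_le_mul_right _ (card_WH0 m)
    rw [← mul_sum] at h3
    omega
  have h3 : ((∑ m ∈ range (N + 1), aH m * D m N : ℕ) : ℝ) ≤ 2 * aF N := by exact_mod_cast h2
  push_cast at h3
  have h4 := mul_le_mul_of_nonneg_right h3 (pow_pos y_pos N).le
  rw [sum_mul] at h4
  have h5 : ∑ m ∈ range (N + 1), rH m * q m N =
      ∑ m ∈ range (N + 1), (aH m : ℝ) * D m N * y ^ N := by
    refine sum_congr rfl fun m _ => ?_
    unfold q
    rw [aH_rH]
    ring
  rw [h5]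
  unfold rF
  linarith

theorem rF_up (n : ℕ) (hn : 3 ≤ n) : rF n ≤
    78 * ∑ c ∈ range 4, ∑ m ∈ range (n - c + 1), rH (m - 1) * q m (n - c) := by
  have h1 : (aF n : ℝ) ≤ 26 * ∑ c ∈ range 4, (T' (n - c) : ℝ) := by exact_mod_cast upper n
  have h2 := mul_le_mul_of_nonneg_right h1 (pow_pos y_pos n).le
  unfold rF
  refine h2.trans ?_
  rw [mul_assoc, sum_mul, show (78 : ℝ) = 26 * 3 by norm_num, mul_assoc (26 : ℝ) 3]
  have h26 : (0 : ℝ) ≤ 26 := by norm_num
  refine mul_le_mul_of_nonneg_left ?_ h26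
  rw [mul_sum]
  refine sum_le_sum fun c hc => ?_
  rw [mem_range] at hc
  unfold T'
  push_cast
  rw [sum_mul, mul_sum]
  refine sum_le_sum fun m _ => ?_
  unfold q
  have h3 : (hh m : ℝ) ≤ 3 * rH (m - 1) * mu ^ m := by
    unfold hh
    split_ifs with h
    · subst h
      have := rH_ge (0 - 1)
      simp only [Nat.cast_one, pow_zero]
      linarith
    · obtain ⟨k, rfl⟩ : ∃ k, m = k + 1 := ⟨m - 1, by omega⟩
      rw [Nat.add_sub_cancel]
      push_cast
      rw [aH_rH, pow_succ]
      have h4 := rH_ge k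
      have h5 := mu_gt
      have h6 := pow_pos mu_pos k
      have h7 : rH k * mu ^ k ≤ rH k * (mu ^ k * mu) := by
        refine mul_le_mul_of_nonneg_left ?_ (by linarith)
        nlinarith
      linarith
  have h4 : y ^ n ≤ y ^ (n - c) := pow_le_pow_of_le_one y_pos.le y_lt.le (by omega)
  have h5 : (0 : ℝ) ≤ D m (n - c) := Nat.cast_nonneg _
  have h6 := pow_pos y_pos (n - c)
  calc (hh m : ℝ) * D m (n - c) * y ^ n ≤ 3 * rH (m - 1) * mu ^ m * D m (n - c) * y ^ (n - c) := by
        refine mul_le_mul (mul_le_mul_of_nonneg_right h3 h5) h4 (pow_pos y_pos n).le ?_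
        have := rH_ge (m - 1)
        have := pow_pos mu_pos m
        positivity
    _ = _ := by ring

end H30.FT
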