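import Pool.Agent.H30.FT.Cnv

/-!
# The number of steps needed to reach a level
-/

set_option autoImplicit false

namespace H30.FT

open Finset Filter Topology

/-- one more step -/
noncomputable def T (f : ℕ → ℝ) (N : ℕ) : ℝ :=
  (if 2 ≤ N then p2 * f (N - 2) else 0) + (if 3 ≤ N then p3 * f (N - 3) else 0)

/-- partial sums -/
noncomputable def R (f : ℕ → ℝ) (N : ℕ) : ℝ := ∑ k ∈ range N, f k

theorem R_T (f : ℕ → ℝ) (N : ℕ) : R (T f) N = T (R f) N := by
  induction N with
  | zero => simp [R, T]
  | succ N ih =>
    have e : R (T f) (N + 1) = R (T f) N + T f N := by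
      unfold R
      rw [sum_range_succ]
    rw [e, ih]
    rcases N with _ | _ | _ | N
    · simp [T]
    · simp [T, R]
    · simp [T, R]
    · have h1 : R f (N + 1 + 1 + 1 + 1 - 2) = R f (N + 1 + 1 + 1 - 2) + f (N + 1 + 1 + 1 - 2) := by
        rw [show N + 1 + 1 + 1 + 1 - 2 = N + 1 + 1 by omega,
          show N + 1 + 1 + 1 - 2 = N + 1 by omega]
        unfold R
        rw [sum_range_succ]
      have h2 : R f (N + 1 + 1 + 1 + 1 - 3) = R f (N + 1 + 1 + 1 - 3) + f (N + 1 + 1 + 1 - 3) := by
        rw [show N + 1 + 1 + 1 + 1 - 3 = N + 1 by omega,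
          show N + 1 + 1 + 1 - 3 = N by omega]
        unfold R
        rw [sum_range_succ]
      unfold T
      rw [if_pos (by omega), if_pos (by omega), if_pos (by omega), if_pos (by omega),
        if_pos (by omega), if_pos (by omega), h1, h2]
      ring

theorem q_T (m : ℕ) : q (m + 1) = T (q m) := by
  funext N
  exact q_succ m N

theorem R_q (m N : ℕ) : R (q (m + 1)) N = T (R (q m)) N := by
  rw [q_T, R_T]

theorem R_q_zero (N : ℕ) : R (q 0) (N + 1) = 1 := by
  unfold R
  rw [sum_range_succ']
  simp [q_zero]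

theorem R_nonneg (m N : ℕ) : 0 ≤ R (q m) N := sum_nonneg fun _ _ => q_nonneg _ _

/-- `N` is reached after at least `j` steps -/
noncomputable def U (j N : ℕ) : ℝ := ∑ m ∈ range (N + 1), if j ≤ m then q m N else 0

theorem U_ext {j N M : ℕ} (h : N < M) : ∑ m ∈ range M, (if j ≤ m then q m N else 0) = U j N := by
  unfold U
  symm
  refine sum_subset ?_ ?_
  · intro m hm
    rw [mem_range] at hm ⊢
    omega
  · intro m _ hm
    rw [mem_range] at hm
    rw [q_zero_of (Or.inl (by omega))]
    simp

theorem U_succ (j N : ℕ) : U (j + 1) N = T (U j) N := by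
  have h : U (j + 1) N = ∑ m ∈ range N, if j ≤ m then q (m + 1) N else 0 := by
    unfold U
    rw [sum_range_succ']
    simp
  have h' : (∑ m ∈ range N, if j ≤ m then q (m + 1) N else 0) =
      ∑ m ∈ range N, ((if 2 ≤ N then p2 * (if j ≤ m then q m (N - 2) else 0) else 0) +
        (if 3 ≤ N then p3 * (if j ≤ m then q m (N - 3) else 0) else 0)) := by
    refine sum_congr rfl fun m _ => ?_
    rw [q_succ]
    split_ifs <;> simp
  rw [h, h', sum_add_distrib]
  unfold T
  congr 1
  · split_ifs with h2
    · rw [← mul_sum, U_ext (by omega)]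
    · simp
  · split_ifs with h2
    · rw [← mul_sum, U_ext (by omega)]
    · simp

theorem U_le (j : ℕ) : ∀ N, U j N ≤ R (q j) (N + 1) := by
  have h2 := p2_pos
  have h3 := p3_pos
  induction j with
  | zero =>
    intro N
    rw [R_q_zero]
    refine le_trans (le_of_eq ?_) (u_le N)
    unfold U u
    simp
  | succ j ih =>
    intro N
    rw [U_succ, R_q]
    unfold T
    refine add_le_add ?_ ?_
    · split_ifs with h4 h5
      · have := ih (N - 2)
        rw [show N - 2 + 1 = N + 1 - 2 by omega] at this
        exact mul_le_mul_of_nonneg_left this h2.le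
      · omega
      · exact mul_nonneg h2.le (R_nonneg _ _)
      · exact le_rfl
    · split_ifs with h4 h5
      · have := ih (N - 3)
        rw [show N - 3 + 1 = N + 1 - 3 by omega] at this
        exact mul_le_mul_of_nonneg_left this h3.le
      · omega
      · exact mul_nonneg h3.le (R_nonneg _ _)
      · exact le_rfl

/-- `N` is reached after at most `j` steps -/
noncomputable def A (j N : ℕ) : ℝ := ∑ m ∈ range (j + 1), q m N

theorem A_succ (j N : ℕ) (hN : 1 ≤ N) : A (j + 1) N = T (A j) N := by
  have h : A (j + 1) N = ∑ m ∈ range (j + 1), q (m + 1) N := by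
    unfold A
    rw [sum_range_succ', q_zero, if_neg (by omega), add_zero]
  rw [h]
  simp only [q_succ]
  rw [sum_add_distrib]
  unfold T A
  congr 1
  · split_ifs with h2
    · rw [← mul_sum]
    · simp
  · split_ifs with h2
    · rw [← mul_sum]
    · simp

theorem A_zero (j : ℕ) : A j 0 = 1 := by
  unfold A
  rw [sum_range_succ', q_zero, if_pos rfl, sum_eq_zero, zero_add]
  intro m _
  exact q_zero_of (Or.inl (by omega))

theorem A_le (j : ℕ) : ∀ N, A j N + R (q j) N ≤ 1 := by
  have h2 := p2_pos
  have h3 := p3_pos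
  have hp := p_sum
  induction j with
  | zero =>
    intro N
    rcases N with _ | N
    · rw [A_zero]
      simp [R]
    · rw [R_q_zero]
      unfold A
      simp [q_zero]
  | succ j ih =>
    intro N
    rcases N.eq_zero_or_pos with rfl | hN
    · rw [A_zero]
      simp [R]
    · rw [A_succ j N hN, R_q]
      unfold T
      have e2 : (if 2 ≤ N then p2 * A j (N - 2) else 0) + (if 2 ≤ N then p2 * R (q j) (N - 2) else 0)
          ≤ p2 := by
        split_ifs with h4
        · have := mul_le_mul_of_nonneg_left (ih (N - 2)) h2.le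
          linarith
        · linarith
      have e3 : (if 3 ≤ N then p3 * A j (N - 3) else 0) + (if 3 ≤ N then p3 * R (q j) (N - 3) else 0)
          ≤ p3 := by
        split_ifs with h4
        · have := mul_le_mul_of_nonneg_left (ih (N - 3)) h3.le
          linarith
        · linarith
      linarith

/-- the number of steps is close to its mean -/
theorem far {m K N : ℕ} (hK : 4 ≤ K) (hKm : K + 2 ≤ m) (hN : |(N : ℝ) - E * m| ≤ 4) :
    ∑ k ∈ (range (N + 1)).filter (fun k => ¬ (k ≤ m + K ∧ m ≤ k + K)), q k N ≤
      4 * Real.exp (-((K : ℝ) ^ 2 / (8 * m))) := by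
  obtain ⟨hE2, hE3⟩ := E_bounds
  have hm0 : (0 : ℝ) < m := by exact_mod_cast (by omega : 0 < m)
  have hK0 : (4 : ℝ) ≤ K := by exact_mod_cast hK
  have hKm' : (K : ℝ) + 2 ≤ m := by exact_mod_cast hKm
  obtain ⟨hN1, hN2⟩ := abs_le.1 hN
  -- upper part
  have h1 : U (m + K + 1) N ≤ 2 * Real.exp (-((K : ℝ) ^ 2 / (8 * m))) := by
    refine (U_le (m + K + 1) N).trans ?_
    unfold R
    refine (tail (m + K + 1) (by omega) (x := K) (by positivity) (range (N + 1)) ?_).trans ?_
    · intro N' hN'
      rw [mem_range] at hN'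
      have h2 : (N' : ℝ) ≤ N := by exact_mod_cast (by omega : N' ≤ N)
      rw [abs_sub_comm]
      refine le_trans ?_ (le_abs_self _)
      push_cast
      nlinarith
    · refine mul_le_mul_of_nonneg_left ?_ (by norm_num)
      rw [Real.exp_le_exp, neg_le_neg_iff]
      refine div_le_div_of_nonneg_left (by positivity) (by positivity) ?_
      push_cast
      linarith
  -- lower part
  have h2 : A (m - K - 1) N ≤ 2 * Real.exp (-((K : ℝ) ^ 2 / (8 * m))) := by
    obtain ⟨j, hj⟩ : ∃ j, j = m - K - 1 := ⟨_, rfl⟩
    have hj1 : 1 ≤ j := by omega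
    have hmj : m = j + K + 1 := by omega
    have hcast : (m : ℝ) = j + K + 1 := by exact_mod_cast hmj
    rw [← hj]
    have h3 := A_le j N
    have h4 : 1 ≤ R (q j) N + ∑ N' ∈ (range (3 * j + 1)).filter (fun N' => N ≤ N'), q j N' := by
      rw [← q_total j]
      rw [← sum_filter_add_sum_filter_not (range (3 * j + 1)) (fun N' => N ≤ N')]
      rw [add_comm]
      refine add_le_add ?_ le_rfl
      unfold R
      refine sum_le_sum_of_subset_of_nonneg ?_ fun _ _ _ => q_nonneg _ _
      intro N' hN'
      rw [mem_filter] at hN'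
      rw [mem_range]
      omega
    have h5 := tail j hj1 (x := K) (by positivity) ((range (3 * j + 1)).filter (fun N' => N ≤ N'))
      (by
        intro N' hN'
        rw [mem_filter] at hN'
        have h6 : (N : ℝ) ≤ N' := by exact_mod_cast hN'.2
        refine le_trans ?_ (le_abs_self _)
        rw [hcast] at hN1
        nlinarith)
    have h6 : 2 * Real.exp (-((K : ℝ) ^ 2 / (4 * j))) ≤ 2 * Real.exp (-((K : ℝ) ^ 2 / (8 * m))) := by
      refine mul_le_mul_of_nonneg_left ?_ (by norm_num)
      rw [Real.exp_le_exp, neg_le_neg_iff]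
      have hj0 : (0 : ℝ) < j := by exact_mod_cast hj1
      refine div_le_div_of_nonneg_left (by positivity) (by positivity) ?_
      rw [hcast]
      nlinarith
    linarith
  have h3 : ∑ k ∈ (range (N + 1)).filter (fun k => ¬ (k ≤ m + K ∧ m ≤ k + K)), q k N ≤
      U (m + K + 1) N + A (m - K - 1) N := by
    have h4 : ∑ k ∈ (range (N + 1)).filter (fun k => ¬ (k ≤ m + K ∧ m ≤ k + K)), q k N ≤
        ∑ k ∈ (range (N + 1)).filter (fun k => ¬ (k ≤ m + K ∧ m ≤ k + K)),
          ((if m + K + 1 ≤ k then q k N else 0) + (if k ≤ m - K - 1 then q k N else 0)) := by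
      refine sum_le_sum fun k hk => ?_
      rw [mem_filter] at hk
      have := q_nonneg k N
      by_cases h5 : m + K + 1 ≤ k
      · rw [if_pos h5]
        split_ifs <;> linarith
      · rw [if_neg h5, if_pos (by omega)]
        linarith
    refine h4.trans ?_
    rw [sum_add_distrib]
    refine add_le_add ?_ ?_
    · unfold U
      refine sum_le_sum_of_subset_of_nonneg (filter_subset _ _) fun k _ _ => ?_
      split_ifs
      · exact q_nonneg _ _
      · exact le_rfl
    · unfold A
      rw [← sum_filter]
      refine sum_le_sum_of_subset_of_nonneg ?_ fun _ _ _ => q_nonneg _ _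
      intro k hk
      rw [mem_filter] at hk
      rw [mem_range]
      omega
  linarith

end H30.FT
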