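import Mathlib

/-!
# Self-avoiding paths as words

Paths in a graph whose neighbours carry labels are words in the labels.
-/

set_option autoImplicit false

namespace H30.FT

section
variable {α β : Type}

/-- the vertices of the path from `a` with the labels `d` -/
def tr (g : α → β → α) : α → List β → List α
  | a, [] => [a]
  | a, j :: d => a :: tr g (g a j) d

/-- the path from `a` with the labels `d` is self-avoiding and avoids `S` (after the start) -/
def SA (g : α → β → α) : Set α → α → List β → Prop
  | _, _, [] => True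
  | S, a, j :: d => g a j ∉ S ∧ SA g (insert (g a j) S) (g a j) d

theorem tr_eq (g : α → β → α) (a : α) (d : List β) : tr g a d = a :: (tr g a d).tail := by
  cases d <;> simp [tr]

theorem tr_length (g : α → β → α) (a : α) (d : List β) : (tr g a d).length = d.length + 1 := by
  induction d generalizing a with
  | nil => simp [tr]
  | cons j d ih => simp [tr, ih]

theorem tr_map {γ : Type} (g : α → β → α) (h : γ → β → γ) (φ : α → γ) (σ : β → β)
    (hφ : ∀ a j, φ (g a j) = h (φ a) (σ j)) (a : α) (d : List β) :
    tr h (φ a) (d.map σ) = (tr g a d).map φ := by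
  induction d generalizing a with
  | nil => simp [tr]
  | cons j d ih => simp [tr, ← hφ, ih]

theorem SA_iff (g : α → β → α) (S : Set α) (a : α) (d : List β) :
    SA g S a d ↔ (tr g a d).tail.Nodup ∧ ∀ x ∈ (tr g a d).tail, x ∉ S := by
  induction d generalizing S a with
  | nil => simp [SA, tr]
  | cons j d ih =>
    have e : (tr g a (j :: d)).tail = tr g (g a j) d := by simp [tr]
    rw [e, SA, ih, tr_eq g (g a j) d]
    simp only [List.tail_cons, List.nodup_cons, List.mem_cons, Set.mem_insert_iff, not_or]
    constructor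
    · rintro ⟨h1, h2, h3⟩
      refine ⟨⟨fun h => (h3 _ h).1 rfl, h2⟩, ?_⟩
      rintro x (rfl | hx)
      · exact h1
      · exact (h3 x hx).2
    · rintro ⟨⟨h1, h2⟩, h3⟩
      refine ⟨h3 _ (Or.inl rfl), h2, fun x hx => ⟨?_, h3 x (Or.inr hx)⟩⟩
      rintro rfl
      exact h1 hx

theorem SA_self (g : α → β → α) (a : α) (d : List β) : SA g {a} a d ↔ (tr g a d).Nodup := by
  rw [SA_iff, tr_eq g a d]
  simp only [List.tail_cons, List.nodup_cons, Set.mem_singleton_iff]
  constructor
  · rintro ⟨h1, h2⟩
    exact ⟨fun h => h2 a h rfl, h1⟩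
  · rintro ⟨h1, h2⟩
    refine ⟨h2, ?_⟩
    rintro x hx rfl
    exact h1 hx

/-- words of self-avoiding paths -/
def W (g : α → β → α) (o : α) (n : ℕ) : Set (List β) := {d | d.length = n ∧ (tr g o d).Nodup}

theorem W_finite [Finite β] (g : α → β → α) (o : α) (n : ℕ) : (W g o n).Finite :=
  (List.finite_length_eq β n).subset fun _ h => h.1

/-- self-avoiding paths with `n` steps from the vertex `o` -/
def paths (A : α → α → Prop) (o : α) (n : ℕ) : Set (List α) :=
  {w | w.length = n + 1 ∧ w.head? = some o ∧ w.IsChain A ∧ w.Nodup}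

theorem tr_inj (g : α → β → α) (hg : ∀ a, Function.Injective (g a)) (a : α) (d d' : List β)
    (h : tr g a d = tr g a d') : d = d' := by
  induction d generalizing a d' with
  | nil =>
    cases d' with
    | nil => rfl
    | cons j d' =>
      have := congrArg List.length h
      simp [tr, tr_length] at this
  | cons j d ih =>
    cases d' with
    | nil =>
      have := congrArg List.length h
      simp [tr, tr_length] at this
    | cons k d' =>
      simp only [tr, List.cons.injEq, true_and] at h
      have h1 : g a j = g a k := by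
        have h2 := congrArg List.head? h
        rw [tr_eq g (g a j), tr_eq g (g a k)] at h2
        simpa using h2
      have h3 := hg a h1
      subst h3
      rw [ih _ _ h]

theorem tr_chain (g : α → β → α) (A : α → α → Prop) (hA : ∀ a b, A a b ↔ ∃ j, b = g a j) (a : α)
    (d : List β) : (tr g a d).IsChain A := by
  induction d generalizing a with
  | nil => simp [tr]
  | cons j d ih =>
    have := ih (g a j)
    simp only [tr]
    rw [tr_eq g (g a j) d] at this ⊢
    rw [List.isChain_cons_cons]
    exact ⟨(hA _ _).2 ⟨j, rfl⟩, this⟩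

theorem chain_tr (g : α → β → α) (A : α → α → Prop) (hA : ∀ a b, A a b ↔ ∃ j, b = g a j)
    (w : List α) (a : α) (h : (a :: w).IsChain A) : ∃ d : List β, tr g a d = a :: w := by
  induction w generalizing a with
  | nil => exact ⟨[], rfl⟩
  | cons b w ih =>
    rw [List.isChain_cons_cons] at h
    obtain ⟨d, hd⟩ := ih b h.2
    obtain ⟨j, rfl⟩ := (hA _ _).1 h.1
    exact ⟨j :: d, by simp [tr, hd]⟩

theorem paths_eq (g : α → β → α) (A : α → α → Prop) (hA : ∀ a b, A a b ↔ ∃ j, b = g a j) (o : α)
    (n : ℕ) : paths A o n = tr g o '' W g o n := by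
  ext w
  constructor
  · rintro ⟨h1, h2, h3, h4⟩
    cases w with
    | nil => simp at h2
    | cons a w =>
      simp only [List.head?_cons, Option.some.injEq] at h2
      subst h2
      obtain ⟨d, hd⟩ := chain_tr g A hA w a h3
      refine ⟨d, ⟨?_, ?_⟩, hd⟩
      · have := congrArg List.length hd
        rw [tr_length] at this
        omega
      · rw [hd]; exact h4
  · rintro ⟨d, ⟨h1, h2⟩, rfl⟩
    refine ⟨by rw [tr_length, h1], ?_, tr_chain g A hA o d, h2⟩
    rw [tr_eq]
    rfl

theorem paths_ncard (g : α → β → α) (hg : ∀ a, Function.Injective (g a)) (A : α → α → Prop)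
    (hA : ∀ a b, A a b ↔ ∃ j, b = g a j) (o : α) (n : ℕ) :
    (paths A o n).ncard = (W g o n).ncard := by
  rw [paths_eq g A hA o n]
  refine Set.InjOn.ncard_image ?_
  intro d _ d' _ h
  exact tr_inj g hg o d d' h

end

/-! ### the honeycomb lattice and the lattice of triangles and dodecagons -/

/-- the sign of a vertex of the honeycomb lattice -/
def sg (p : ℤ × ℤ) : ℤ := if Even (p.1 + p.2) then 1 else -1

/-- the three neighbours of a vertex of the honeycomb lattice -/
def nb (p : ℤ × ℤ) (i : Fin 3) : ℤ × ℤ :=
  if i = 0 then (p.1 + sg p, p.2) else if i = 1 then (p.1 - sg p, p.2) else (p.1, p.2 + sg p)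

/-- the three neighbours of a vertex of the other lattice -/
def nbF (u : (ℤ × ℤ) × Fin 3) (j : Fin 3) : (ℤ × ℤ) × Fin 3 :=
  if j = u.2 then (nb u.1 j, j) else (u.1, j)

theorem sg_cases (p : ℤ × ℤ) : sg p = 1 ∨ sg p = -1 := by
  unfold sg
  split_ifs <;> simp

theorem sg_nb (p : ℤ × ℤ) (i : Fin 3) : sg (nb p i) = - sg p := by
  by_cases h : Even (p.1 + p.2)
  · have h1 : sg p = 1 := by unfold sg; rw [if_pos h]
    have h2 : ¬ Even ((nb p i).1 + (nb p i).2) := by
      rw [Int.not_even_iff_odd]
      unfold nb
      rw [h1]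
      obtain ⟨k, hk⟩ := h
      split_ifs
      · exact ⟨k, by simp only; omega⟩
      · exact ⟨k - 1, by simp only; omega⟩
      · exact ⟨k, by simp only; omega⟩
    rw [h1]
    unfold sg
    rw [if_neg h2]
  · have h1 : sg p = -1 := by unfold sg; rw [if_neg h]
    have h2 : Even ((nb p i).1 + (nb p i).2) := by
      unfold nb
      rw [h1]
      rw [Int.not_even_iff_odd] at h
      obtain ⟨k, hk⟩ := h
      split_ifs
      · exact ⟨k, by simp only; omega⟩
      · exact ⟨k + 1, by simp only; omega⟩
      · exact ⟨k, by simp only; omega⟩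
    rw [h1]
    unfold sg
    rw [if_pos h2]
    norm_num

theorem nb_nb (p : ℤ × ℤ) (i : Fin 3) : nb (nb p i) i = p := by
  have h := sg_nb p i
  ext
  · by_cases h0 : i = 0
    · subst h0; simp only [nb, if_true] at h ⊢; rw [h]; ring
    · by_cases h1 : i = 1
      · subst h1; simp only [nb] at h ⊢; simp at h ⊢; rw [h]; ring
      · simp [nb, h0, h1]
  · by_cases h0 : i = 0
    · simp [nb, h0]
    · by_cases h1 : i = 1
      · simp [nb, h1]
      · simp only [nb, if_neg h0, if_neg h1] at h ⊢; rw [h]; ring

theorem nb_ne (p : ℤ × ℤ) (i : Fin 3) : nb p i ≠ p := by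
  intro h
  have h1 := sg_nb p i
  rw [h] at h1
  rcases sg_cases p with h2 | h2 <;> rw [h2] at h1 <;> norm_num at h1

theorem nb_inj (p : ℤ × ℤ) : Function.Injective (nb p) := by
  intro i j h
  have h1 := congrArg Prod.fst h
  have h2 := congrArg Prod.snd h
  rcases sg_cases p with hs | hs <;> fin_cases i <;> fin_cases j <;>
    simp [nb, hs] at h1 h2 ⊢ <;> omega

theorem nbF_inj (u : (ℤ × ℤ) × Fin 3) : Function.Injective (nbF u) := by
  intro i j h
  have h1 := congrArg Prod.snd h
  unfold nbF at h1
  split_ifs at h1 <;> exact h1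

end H30.FT
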